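import Mathlib

open Metric GromovHausdorff

namespace Pool.Agent.H62.Ball

instance instNonemptySphere (m : ℕ) :
    Nonempty (sphere (0 : EuclideanSpace ℝ (Fin (m + 1))) 1) :=
  ⟨⟨EuclideanSpace.single 0 1, by simp⟩⟩

/-- The Gromov–Hausdorff distance (Mathlib's `GromovHausdorff.ghDist`) between the closed
Euclidean unit ball `B^{m+1}` and its boundary sphere `S^m`, both with the Euclidean (chordal)
metric of `ℝ^{m+1}`. -/
noncomputable def dGH (m : ℕ) : ℝ :=
  ghDist (closedBall (0 : EuclideanSpace ℝ (Fin (m + 1))) 1)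
    (sphere (0 : EuclideanSpace ℝ (Fin (m + 1))) 1)

end Pool.Agent.H62.Ball
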