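import Pool.Agent.H62.Ball.Main

open Real Metric GromovHausdorff

namespace Pool.Agent.H62.Ball

/-- the polynomial whose root is the lower bound -/
theorem poly_mono {m : ℕ} (hm : 1 ≤ m) {x y : ℝ} (hx : 1 / 2 ≤ x) (h : x < y) (hy : y ≤ 3 / 4) :
    4 * (((m + 2) ^ 2 / 4 : ℕ) : ℝ) * ((2 * x - 1) * (1 - x)) - x * ((m + 2) - 2 * (m + 1) * x ^ 2)
    < 4 * (((m + 2) ^ 2 / 4 : ℕ) : ℝ) * ((2 * y - 1) * (1 - y)) -
      y * ((m + 2) - 2 * (m + 1) * y ^ 2) := by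
  have hm' : (1 : ℝ) ≤ m := by exact_mod_cast hm
  set K : ℝ := (((m + 2) ^ 2 / 4 : ℕ) : ℝ) with hK
  have hK1 : 1 ≤ K := by
    have : 1 ≤ (m + 2) ^ 2 / 4 := by
      rw [Nat.le_div_iff_mul_le (by norm_num)]; nlinarith
    rw [hK]; exact_mod_cast this
  have h1 : 0 < y - x := by linarith
  have h2 : 0 < 3 - 2 * (x + y) := by linarith
  have h3 : 0 ≤ -((m : ℝ) + 2) + 2 * (m + 1) * (x ^ 2 + x * y + y ^ 2) := by
    have : 3 / 4 ≤ x ^ 2 + x * y + y ^ 2 := by nlinarith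
    nlinarith
  have h4 : 0 < 4 * K * (3 - 2 * (x + y)) := by positivity
  nlinarith [mul_pos h1 (add_pos_of_pos_of_nonneg h4 h3)]

theorem dGH_nonneg (m : ℕ) : 0 ≤ dGH m := by
  rw [dGH, ghDist]; exact dist_nonneg

theorem dGH_lt {m : ℕ} (hm : 1 ≤ m) : dGH m < 0.65219 := by
  obtain ⟨t, _, h2, h3⟩ := exists_root
  have := upper h3 (by linarith) hm
  linarith

theorem lower_ineq {m : ℕ} (hm : 1 ≤ m) :
    dGH m * ((m + 2) - 2 * (m + 1) * dGH m ^ 2) ≤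
      4 * (((m + 2) ^ 2 / 4 : ℕ) : ℝ) * ((2 * dGH m - 1) * (1 - dGH m)) := by
  have h0 := dGH_nonneg m
  have h1 := dGH_lt hm
  set d := dGH m with hd
  have hc : Continuous fun t : ℝ => 4 * (((m + 2) ^ 2 / 4 : ℕ) : ℝ) * ((2 * t - 1) * (1 - t)) -
      t * ((m + 2) - 2 * (m + 1) * t ^ 2) := by fun_prop
  have ht : Filter.Tendsto (fun t : ℝ => 4 * (((m + 2) ^ 2 / 4 : ℕ) : ℝ) *
      ((2 * t - 1) * (1 - t)) - t * ((m + 2) - 2 * (m + 1) * t ^ 2)) (nhdsWithin d (Set.Ioi d))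
      (nhds (4 * (((m + 2) ^ 2 / 4 : ℕ) : ℝ) * ((2 * d - 1) * (1 - d)) -
        d * ((m + 2) - 2 * (m + 1) * d ^ 2))) := hc.continuousAt.continuousWithinAt.tendsto
  have hev : ∀ᶠ t in nhdsWithin d (Set.Ioi d), 0 ≤ 4 * (((m + 2) ^ 2 / 4 : ℕ) : ℝ) *
      ((2 * t - 1) * (1 - t)) - t * ((m + 2) - 2 * (m + 1) * t ^ 2) := by
    have : Set.Ioo d 0.7 ∈ nhdsWithin d (Set.Ioi d) := Ioo_mem_nhdsGT (by linarith)
    filter_upwards [this] with t ht'
    have := lower_of_gt (m := m) (t := t) (by linarith [ht'.1]) ht'.2 ht'.1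
    linarith
  have := ge_of_tendsto ht hev
  linarith

theorem half_lt {m : ℕ} (hm : 1 ≤ m) : 1 / 2 < dGH m := by
  have h0 := dGH_nonneg m
  have h1 := dGH_lt hm
  have h2 := lower_ineq hm
  by_contra hc
  push Not at hc
  have hm' : (1 : ℝ) ≤ m := by exact_mod_cast hm
  set K : ℝ := (((m + 2) ^ 2 / 4 : ℕ) : ℝ) with hK
  have hK1 : 1 ≤ K := by
    have : 1 ≤ (m + 2) ^ 2 / 4 := by
      rw [Nat.le_div_iff_mul_le (by norm_num)]; nlinarith
    rw [hK]; exact_mod_cast this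
  set d := dGH m with hd
  have hd2 : d ^ 2 ≤ 1 / 4 := by nlinarith
  have h3 : 0 < ((m : ℝ) + 2) - 2 * (m + 1) * d ^ 2 := by nlinarith
  have h4 : 0 ≤ d * (((m : ℝ) + 2) - 2 * (m + 1) * d ^ 2) := by positivity
  have h5 : 4 * K * ((2 * d - 1) * (1 - d)) ≤ 0 := by
    have : (2 * d - 1) * (1 - d) ≤ 0 := by nlinarith
    nlinarith
  have h6 : d * (((m : ℝ) + 2) - 2 * (m + 1) * d ^ 2) = 0 := by linarith
  have h7 : d = 0 := by
    rcases mul_eq_zero.1 h6 with h | h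
    · exact h
    · linarith
  rw [h7] at h2
  norm_num at h2
  linarith

theorem lower_root {m : ℕ} (hm : 1 ≤ m) : ∃ t : ℝ, 1 / 2 < t ∧ t < 3 / 4 ∧
    4 * (((m + 2) ^ 2 / 4 : ℕ) : ℝ) * ((2 * t - 1) * (1 - t)) =
      t * ((m + 2) - 2 * (m + 1) * t ^ 2) ∧
    (∀ u : ℝ, 1 / 2 < u → u < 3 / 4 →
      4 * (((m + 2) ^ 2 / 4 : ℕ) : ℝ) * ((2 * u - 1) * (1 - u)) =
        u * ((m + 2) - 2 * (m + 1) * u ^ 2) → u = t) ∧
    (Even m → t = 1 / (1 + √((m : ℝ) / (m + 2)))) ∧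
    t ≤ dGH m := by
  have h1 := dGH_lt hm
  have h2 := lower_ineq hm
  have h3 := half_lt hm
  have hm' : (1 : ℝ) ≤ m := by exact_mod_cast hm
  set d := dGH m with hd
  have hc : ContinuousOn (fun t : ℝ => 4 * (((m + 2) ^ 2 / 4 : ℕ) : ℝ) *
      ((2 * t - 1) * (1 - t)) - t * ((m + 2) - 2 * (m + 1) * t ^ 2)) (Set.Icc (1 / 2) d) := by
    fun_prop
  have hi := intermediate_value_Icc h3.le hc
  have hmem : (0 : ℝ) ∈ Set.Icc ((fun t : ℝ => 4 * (((m + 2) ^ 2 / 4 : ℕ) : ℝ) *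
      ((2 * t - 1) * (1 - t)) - t * ((m + 2) - 2 * (m + 1) * t ^ 2)) (1 / 2))
      ((fun t : ℝ => 4 * (((m + 2) ^ 2 / 4 : ℕ) : ℝ) *
      ((2 * t - 1) * (1 - t)) - t * ((m + 2) - 2 * (m + 1) * t ^ 2)) d) := by
    constructor
    · simp only; nlinarith
    · simp only; linarith
  obtain ⟨t, ht, hf⟩ := hi hmem
  simp only at hf
  have ht1 : 1 / 2 < t := by
    refine lt_of_le_of_ne ht.1 ?_
    rintro rfl
    nlinarith
  have huniq : ∀ u : ℝ, 1 / 2 < u → u < 3 / 4 →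
      4 * (((m + 2) ^ 2 / 4 : ℕ) : ℝ) * ((2 * u - 1) * (1 - u)) =
        u * ((m + 2) - 2 * (m + 1) * u ^ 2) → u = t := by
    intro u hu0 hu1 hu
    rcases lt_trichotomy u t with h | h | h
    · have := poly_mono hm hu0.le h (by linarith [ht.2])
      linarith
    · exact h
    · have := poly_mono hm ht.1 h hu1.le
      linarith
  refine ⟨t, ht1, by linarith [ht.2], by linarith, huniq, ?_, ht.2⟩
  intro hev
  symm
  have hx0 : (0 : ℝ) ≤ (m : ℝ) / (m + 2) := by positivity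
  set x := √((m : ℝ) / (m + 2)) with hx
  have hx2 : x ^ 2 = (m : ℝ) / (m + 2) := Real.sq_sqrt hx0
  have hx2' : x ^ 2 * (m + 2) = m := by rw [hx2]; field_simp
  have hx1 : x < 1 := by
    have : x ^ 2 < 1 := by
      rw [hx2, div_lt_one (by positivity)]; linarith
    nlinarith [Real.sqrt_nonneg ((m : ℝ) / (m + 2))]
  have hx00 : 0 ≤ x := Real.sqrt_nonneg _
  have hx3 : 1 / 3 < x := by
    have : 1 / 3 ≤ x ^ 2 := by
      rw [hx2, div_le_div_iff₀ (by norm_num) (by positivity)]; linarith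
    nlinarith
  have hK : (4 : ℝ) * (((m + 2) ^ 2 / 4 : ℕ) : ℝ) = (m + 2) ^ 2 := by
    obtain ⟨k, hk⟩ := hev
    have : (m + 2) ^ 2 / 4 = (k + 1) ^ 2 := by
      rw [hk, show (k + k + 2) ^ 2 = (k + 1) ^ 2 * 4 by ring, Nat.mul_div_cancel _ (by norm_num)]
    rw [this]
    have hk' : (m : ℝ) = k + k := by exact_mod_cast hk
    rw [hk']; push_cast; ring
  have h1x : (0 : ℝ) < 1 + x := by linarith
  apply huniq
  · rw [div_lt_div_iff₀ (by norm_num) h1x]; linarith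
  · rw [div_lt_div_iff₀ h1x (by norm_num)]; linarith
  · rw [hK]
    have e : (2 : ℝ) = (m + 2) * (1 - x ^ 2) := by linarith
    have e3 : (m : ℝ) = (m + 2) - 2 := by ring
    field_simp
    have g : ∀ N : ℝ, N * (1 - x ^ 2) = 2 → N ^ 2 * ((2 - (1 + x)) * (1 + x - 1)) * (1 + x) =
        N * (1 + x) ^ 2 - 2 * (N - 1) := by
      intro N hN
      have : N * (1 + x) ^ 2 - 2 * (N - 1) = N * 2 * x := by
        have : 2 * (N - 1) = 2 * N - N * (1 - x ^ 2) := by rw [hN]; ring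
        rw [this]; ring
      rw [this]
      calc N ^ 2 * ((2 - (1 + x)) * (1 + x - 1)) * (1 + x) = N * (N * (1 - x ^ 2)) * x := by ring
        _ = _ := by rw [hN]
    have := g (m + 2) e.symm
    rw [show (m : ℝ) + 2 - 1 = m + 1 by ring] at this
    linarith

theorem exact_one {t : ℝ} (ht : 4 * t ^ 3 - 16 * t ^ 2 + 21 * t - 8 = 0) (ht1 : t ≤ 1) :
    dGH 1 = t := by
  have h1 := upper ht ht1 le_rfl
  refine le_antisymm h1 ?_
  have h2 := lower_ineq (m := 1) le_rfl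
  by_contra hc
  push Not at hc
  have := cubic_mono hc ht1
  rw [ht] at this
  norm_num at h2
  nlinarith

/-- the cubic has a single real root -/
theorem cubic_root_le {u : ℝ} (hu : 4 * u ^ 3 - 16 * u ^ 2 + 21 * u - 8 = 0) : u ≤ 1 := by
  by_contra hc
  push Not at hc
  have : 0 < 4 * u ^ 3 - 16 * u ^ 2 + 21 * u - 8 := by
    nlinarith [mul_nonneg (sub_nonneg.2 hc.le) (sq_nonneg (2 * u - 3)),
      mul_nonneg (sub_nonneg.2 hc.le) (sq_nonneg (u - 1))]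
  linarith

end Pool.Agent.H62.Ball
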