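import Mathlib

open Set Metric GromovHausdorff

namespace Pool.Agent.H62.Ball

/-- A correspondence with distortion at most `2ε` bounds the Gromov–Hausdorff distance. -/
theorem ghDist_le_of_rel {X : Type*} {Y : Type*} [MetricSpace X] [CompactSpace X] [Nonempty X]
    [MetricSpace Y] [CompactSpace Y] [Nonempty Y] (R : X → Y → Prop) {ε : ℝ} (hε : 0 < ε)
    (hX : ∀ x, ∃ y, R x y) (hY : ∀ y, ∃ x, R x y)
    (H : ∀ x y x' y', R x y → R x' y' → |dist x x' - dist y y'| ≤ 2 * ε) :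
    ghDist X Y ≤ ε := by
  classical
  let Z := {p : X × Y // R p.1 p.2}
  obtain ⟨x0⟩ := (inferInstance : Nonempty X)
  obtain ⟨y0, h0⟩ := hX x0
  haveI : Nonempty Z := ⟨⟨(x0, y0), h0⟩⟩
  let Φ : Z → X := fun p => p.1.1
  let Ψ : Z → Y := fun p => p.1.2
  let _ : MetricSpace (X ⊕ Y) := glueMetricApprox Φ Ψ ε hε
    (fun p q => H _ _ _ _ p.2 q.2)
  let Fl := @Sum.inl X Y
  let Fr := @Sum.inr X Y
  have Il : Isometry Fl := Isometry.of_dist_eq fun x y => rfl
  have Ir : Isometry Fr := Isometry.of_dist_eq fun x y => rfl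
  have h1 : ghDist X Y ≤ hausdorffDist (range Fl) (range Fr) := ghDist_le_hausdorffDist Il Ir
  refine h1.trans ?_
  refine hausdorffDist_le_of_mem_dist hε.le ?_ ?_
  · rintro _ ⟨x, rfl⟩
    obtain ⟨y, hy⟩ := hX x
    refine ⟨Fr y, mem_range_self _, ?_⟩
    exact le_of_eq (glueDist_glued_points Φ Ψ ε ⟨(x, y), hy⟩)
  · rintro _ ⟨y, rfl⟩
    obtain ⟨x, hx⟩ := hY y
    refine ⟨Fl x, mem_range_self _, ?_⟩
    rw [dist_comm]
    exact le_of_eq (glueDist_glued_points Φ Ψ ε ⟨(x, y), hx⟩)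

/-- If the Gromov–Hausdorff distance is less than `ε`, there is a map `X → Y` distorting
distances by less than `2ε`. -/
theorem exists_map_of_ghDist_lt {X : Type*} {Y : Type*} [MetricSpace X] [CompactSpace X]
    [Nonempty X] [MetricSpace Y] [CompactSpace Y] [Nonempty Y] {ε : ℝ}
    (h : ghDist X Y < ε) :
    ∃ f : X → Y, ∀ x x', |dist x x' - dist (f x) (f x')| < 2 * ε := by
  obtain ⟨Φ, Ψ, hΦ, hΨ, he⟩ := ghDist_eq_hausdorffDist X Y
  rw [he] at h
  have hfin : hausdorffEDist (range Φ) (range Ψ) ≠ ⊤ :=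
    hausdorffEDist_ne_top_of_nonempty_of_bounded (range_nonempty _) (range_nonempty _)
      (isCompact_range hΦ.continuous).isBounded (isCompact_range hΨ.continuous).isBounded
  have key : ∀ x : X, ∃ y : Y, dist (Φ x) (Ψ y) < ε := by
    intro x
    obtain ⟨_, ⟨y, rfl⟩, hy⟩ := exists_dist_lt_of_hausdorffDist_lt (mem_range_self x) h hfin
    exact ⟨y, hy⟩
  choose f hf using key
  refine ⟨f, fun x x' => ?_⟩
  have h1 := hf x
  have h2 := hf x'
  rw [← hΦ.dist_eq, ← hΨ.dist_eq]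
  have a := abs_dist_sub_le (Φ x) (Ψ (f x)) (Φ x')
  have b := abs_dist_sub_le (Φ x') (Ψ (f x')) (Ψ (f x))
  rw [dist_comm (Φ x') (Ψ (f x)), dist_comm (Ψ (f x')) (Ψ (f x))] at b
  have c : dist (Φ x) (Φ x') - dist (Ψ (f x)) (Ψ (f x')) =
      (dist (Φ x) (Φ x') - dist (Ψ (f x)) (Φ x')) +
      (dist (Ψ (f x)) (Φ x') - dist (Ψ (f x)) (Ψ (f x'))) := by ring
  rw [c]
  calc _ ≤ _ + _ := abs_add_le _ _
    _ ≤ dist (Φ x) (Ψ (f x)) + dist (Φ x') (Ψ (f x')) := add_le_add a b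
    _ < 2 * ε := by linarith

/-- Convexity of the set of pairs of squared distances with distortion at most `r`. -/
theorem sqrt_conv {A B C D l r : ℝ} (hA : 0 ≤ A) (hB : 0 ≤ B) (hC : 0 ≤ C) (hD : 0 ≤ D)
    (hl0 : 0 ≤ l) (hl1 : l ≤ 1) (h1 : |√A - √C| ≤ r) (h2 : |√B - √D| ≤ r) :
    |√((1 - l) * A + l * B) - √((1 - l) * C + l * D)| ≤ r := by
  have hr : 0 ≤ r := (abs_nonneg _).trans h1
  have hl : 0 ≤ 1 - l := by linarith
  rw [abs_le] at h1 h2 ⊢
  have key : ∀ a b c d : ℝ, 0 ≤ a → 0 ≤ b → 0 ≤ c → 0 ≤ d → a ≤ c + r → b ≤ d + r →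
      √((1 - l) * a ^ 2 + l * b ^ 2) ≤ √((1 - l) * c ^ 2 + l * d ^ 2) + r := by
    intro a b c d ha hb hc hd hac hbd
    rw [Real.sqrt_le_left (by positivity)]
    have hs : (√((1 - l) * c ^ 2 + l * d ^ 2)) ^ 2 = (1 - l) * c ^ 2 + l * d ^ 2 :=
      Real.sq_sqrt (by positivity)
    have hm : (1 - l) * c + l * d ≤ √((1 - l) * c ^ 2 + l * d ^ 2) := by
      apply Real.le_sqrt_of_sq_le
      nlinarith [mul_nonneg (mul_nonneg hl hl0) (sq_nonneg (c - d))]
    have h3 : (1 - l) * a ^ 2 + l * b ^ 2 ≤ (1 - l) * (c + r) ^ 2 + l * (d + r) ^ 2 := by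
      have e1 : a ^ 2 ≤ (c + r) ^ 2 := by nlinarith
      have e2 : b ^ 2 ≤ (d + r) ^ 2 := by nlinarith
      nlinarith
    nlinarith [mul_nonneg hr (sub_nonneg.2 hm)]
  have sA := Real.sq_sqrt hA
  have sB := Real.sq_sqrt hB
  have sC := Real.sq_sqrt hC
  have sD := Real.sq_sqrt hD
  have k1 := key (√A) (√B) (√C) (√D) (by positivity) (by positivity) (by positivity)
    (by positivity) (by linarith) (by linarith)
  have k2 := key (√C) (√D) (√A) (√B) (by positivity) (by positivity) (by positivity)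
    (by positivity) (by linarith) (by linarith)
  rw [sA, sB, sC, sD] at k1 k2
  constructor <;> linarith

end Pool.Agent.H62.Ball
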