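import Mathlib

open Metric Set

namespace Pool.Agent.H62.Ball

variable {E : Type*} [NormedAddCommGroup E] [InnerProductSpace ℝ E]


/-- squared norm of a nonnegative combination of unit vectors at mutual distance at most `d` -/
theorem quad_lower (T : Finset E) (w : E → ℝ) (hw : ∀ y ∈ T, 0 ≤ w y) (hu : ∀ y ∈ T, ‖y‖ = 1)
    {d : ℝ} (hd : ∀ y ∈ T, ∀ z ∈ T, ‖y - z‖ ≤ d) (hT : T.Nonempty) :
    (∑ y ∈ T, w y) ^ 2 * (1 - d ^ 2 / 2 + d ^ 2 / 2 / T.card) ≤ ‖∑ y ∈ T, w y • y‖ ^ 2 := by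
  classical
  have hd0 : 0 ≤ d := by
    obtain ⟨y, hy⟩ := hT
    exact (norm_nonneg _).trans (hd y hy y hy)
  have h1 : ‖∑ y ∈ T, w y • y‖ ^ 2 = ∑ y ∈ T, ∑ z ∈ T, w y * w z * (inner ℝ y z : ℝ) := by
    rw [← real_inner_self_eq_norm_sq, sum_inner]
    refine Finset.sum_congr rfl fun y _ => ?_
    rw [inner_sum]
    refine Finset.sum_congr rfl fun z _ => ?_
    rw [inner_smul_left, inner_smul_right]
    simp; ring
  have h2 : ∀ y ∈ T, ∀ z ∈ T, w y * w z * (1 - d ^ 2 / 2) + (if y = z then w y ^ 2 * (d ^ 2 / 2) else 0) ≤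
      w y * w z * (inner ℝ y z : ℝ) := by
    intro y hy z hz
    split_ifs with h
    · subst h
      rw [real_inner_self_eq_norm_sq, hu y hy]
      nlinarith
    · have e : (inner ℝ y z : ℝ) = 1 - ‖y - z‖ ^ 2 / 2 := by
        have := norm_sub_sq_real y z
        rw [hu y hy, hu z hz] at this
        linarith
      have e2 : ‖y - z‖ ^ 2 ≤ d ^ 2 := pow_le_pow_left₀ (norm_nonneg _) (hd y hy z hz) 2
      rw [e, add_zero]
      exact mul_le_mul_of_nonneg_left (by linarith) (mul_nonneg (hw y hy) (hw z hz))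
  have h3 : ∑ y ∈ T, ∑ z ∈ T, (w y * w z * (1 - d ^ 2 / 2) +
      (if y = z then w y ^ 2 * (d ^ 2 / 2) else 0)) =
      (∑ y ∈ T, w y) ^ 2 * (1 - d ^ 2 / 2) + (∑ y ∈ T, w y ^ 2) * (d ^ 2 / 2) := by
    rw [sq (∑ y ∈ T, w y), Finset.sum_mul_sum, Finset.sum_mul, Finset.sum_mul,
      ← Finset.sum_add_distrib]
    refine Finset.sum_congr rfl fun y hy => ?_
    rw [Finset.sum_add_distrib, Finset.sum_mul, Finset.sum_ite_eq, if_pos hy]
  have h4 : (∑ y ∈ T, w y) ^ 2 ≤ T.card * ∑ y ∈ T, w y ^ 2 := sq_sum_le_card_mul_sum_sq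
  have hc : (0 : ℝ) < T.card := by exact_mod_cast hT.card_pos
  have h5 : (∑ y ∈ T, w y) ^ 2 / T.card ≤ ∑ y ∈ T, w y ^ 2 := by
    rw [div_le_iff₀ hc]; linarith
  calc (∑ y ∈ T, w y) ^ 2 * (1 - d ^ 2 / 2 + d ^ 2 / 2 / T.card)
      = (∑ y ∈ T, w y) ^ 2 * (1 - d ^ 2 / 2) + (∑ y ∈ T, w y) ^ 2 / T.card * (d ^ 2 / 2) := by ring
    _ ≤ (∑ y ∈ T, w y) ^ 2 * (1 - d ^ 2 / 2) + (∑ y ∈ T, w y ^ 2) * (d ^ 2 / 2) := by
        have := mul_le_mul_of_nonneg_right h5 (show 0 ≤ d ^ 2 / 2 by positivity)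
        linarith
    _ = _ := h3.symm
    _ ≤ _ := by
        rw [h1]
        exact Finset.sum_le_sum fun y hy => Finset.sum_le_sum fun z hz => h2 y hy z hz

/-- crossing cones: two families of unit vectors whose convex cones meet -/
theorem crossing [FiniteDimensional ℝ E] (P Q : Set E) (hP : ∀ y ∈ P, ‖y‖ = 1)
    (hQ : ∀ y ∈ Q, ‖y‖ = 1) {d κ : ℝ} (hd : d ^ 2 < 2)
    (hPd : ∀ y ∈ P, ∀ z ∈ P, ‖y - z‖ ≤ d) (hQd : ∀ y ∈ Q, ∀ z ∈ Q, ‖y - z‖ ≤ d)
    (hPQ : ∀ y ∈ P, ∀ z ∈ Q, (inner ℝ y z : ℝ) ≤ κ) {τ : ℝ} (hτ : 0 ≤ τ) {p q : E}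
    (hp : p ∈ convexHull ℝ P) (hq : q ∈ convexHull ℝ Q) (hpq : p = τ • q) :
    ∃ a b : ℕ, 1 ≤ a ∧ 1 ≤ b ∧ a + b ≤ Module.finrank ℝ E + 1 ∧ 0 < κ ∧
      (1 - d ^ 2 / 2 + d ^ 2 / 2 / a) * (1 - d ^ 2 / 2 + d ^ 2 / 2 / b) ≤ κ ^ 2 := by
  classical
  have hτ1 : 0 < 1 + τ := by linarith
  have h0 : (0 : E) ∈ convexHull ℝ (P ∪ (fun y => -y) '' Q) := by
    have hp' : p ∈ convexHull ℝ (P ∪ (fun y => -y) '' Q) :=
      convexHull_mono subset_union_left hp
    have hq' : -q ∈ convexHull ℝ (P ∪ (fun y => -y) '' Q) := by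
      apply convexHull_mono subset_union_right
      have h := (LinearMap.image_convexHull (-LinearMap.id : E →ₗ[ℝ] E) Q)
      have h2 : -q ∈ (-LinearMap.id : E →ₗ[ℝ] E) '' (convexHull ℝ Q) := ⟨q, hq, by simp⟩
      rw [h] at h2
      have h3 : (fun y : E => -y) '' Q = (-LinearMap.id : E →ₗ[ℝ] E) '' Q :=
        Set.image_congr fun a _ => by simp
      rw [h3]; exact h2
    have hconv := convex_convexHull ℝ (P ∪ (fun y => -y) '' Q)
    have := hconv hp' hq' (a := 1 / (1 + τ)) (b := τ / (1 + τ)) (by positivity) (by positivity)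
      (by field_simp)
    convert this using 1
    rw [hpq, smul_smul, smul_neg, ← sub_eq_add_neg, ← sub_smul]
    rw [show 1 / (1 + τ) * τ - τ / (1 + τ) = 0 by ring, zero_smul]
  rw [convexHull_eq_union] at h0
  simp only [mem_iUnion] at h0
  obtain ⟨T, hTs, hTi, hT0⟩ := h0
  rw [Finset.mem_convexHull'] at hT0
  obtain ⟨w, hw, hw1, hw0⟩ := hT0
  -- split `T`
  set T1 := T.filter (· ∈ P) with hT1
  set T2 := T.filter (fun y => ¬ y ∈ P) with hT2
  have hT2' : ∀ y ∈ T2, -y ∈ Q := by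
    intro y hy
    rw [hT2, Finset.mem_filter] at hy
    rcases hTs hy.1 with h | ⟨z, hz, rfl⟩
    · exact absurd h hy.2
    · simpa using hz
  have hT1' : ∀ y ∈ T1, y ∈ P := fun y hy => (Finset.mem_filter.1 hy).2
  have hsum : ∑ y ∈ T1, w y + ∑ y ∈ T2, w y = 1 := by
    rw [hT1, hT2, Finset.sum_filter_add_sum_filter_not, hw1]
  have hsum0 : ∑ y ∈ T1, w y • y + ∑ y ∈ T2, w y • y = 0 := by
    rw [hT1, hT2, Finset.sum_filter_add_sum_filter_not, hw0]
  have hcard : T1.card + T2.card ≤ Module.finrank ℝ E + 1 := by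
    rw [hT1, hT2, Finset.card_filter_add_card_filter_not]
    have := hTi.card_le_finrank_succ
    rw [Fintype.card_coe] at this
    exact this.trans (Nat.succ_le_succ (Submodule.finrank_le _))
  -- the reflected second family
  set T3 := T2.image (fun y => -y) with hT3
  set w3 : E → ℝ := fun y => w (-y) with hw3
  have hinj : Set.InjOn (fun y : E => -y) (T2 : Set E) := fun a _ b _ h => neg_injective h
  have hT3c : T3.card = T2.card := Finset.card_image_of_injOn hinj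
  have hT3s : ∑ y ∈ T3, w3 y = ∑ y ∈ T2, w y := by
    rw [hT3, Finset.sum_image hinj]
    exact Finset.sum_congr rfl fun y _ => by simp [hw3]
  have hT3v : ∑ y ∈ T3, w3 y • y = ∑ y ∈ T1, w y • y := by
    rw [hT3, Finset.sum_image hinj]
    have : ∑ y ∈ T2, w3 (-y) • -y = - ∑ y ∈ T2, w y • y := by
      rw [← Finset.sum_neg_distrib]
      exact Finset.sum_congr rfl fun y _ => by simp [hw3]
    rw [this]
    exact (eq_neg_of_add_eq_zero_left hsum0).symm
  have hT3Q : ∀ y ∈ T3, y ∈ Q := by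
    intro y hy
    rw [hT3, Finset.mem_image] at hy
    obtain ⟨z, hz, rfl⟩ := hy
    exact hT2' z hz
  have hw3' : ∀ y ∈ T3, 0 ≤ w3 y := by
    intro y hy
    rw [hT3, Finset.mem_image] at hy
    obtain ⟨z, hz, rfl⟩ := hy
    simp only [hw3, neg_neg]
    exact hw z (Finset.mem_filter.1 hz).1
  have hw1' : ∀ y ∈ T1, 0 ≤ w y := fun y hy => hw y (Finset.mem_filter.1 hy).1
  set A := ∑ y ∈ T1, w y with hA
  set B := ∑ y ∈ T3, w3 y with hB
  have hAB : A + B = 1 := by rw [hT3s]; exact hsum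
  have hA0 : 0 ≤ A := Finset.sum_nonneg hw1'
  have hB0 : 0 ≤ B := Finset.sum_nonneg hw3'
  set U := ∑ y ∈ T1, w y • y with hU
  have hpos : ∀ n : ℕ, 0 < 1 - d ^ 2 / 2 + d ^ 2 / 2 / n := by
    intro n
    have : 0 ≤ d ^ 2 / 2 / n := by positivity
    linarith
  -- both parts nonempty
  have hn1 : T1.Nonempty := by
    by_contra h
    rw [Finset.not_nonempty_iff_eq_empty] at h
    have hA' : A = 0 := by rw [hA, h, Finset.sum_empty]
    have hU' : U = 0 := by rw [hU, h, Finset.sum_empty]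
    have hB1 : B = 1 := by linarith
    have hn3 : T3.Nonempty := by
      by_contra h3
      rw [Finset.not_nonempty_iff_eq_empty] at h3
      rw [hB, h3, Finset.sum_empty] at hB1
      norm_num at hB1
    have := quad_lower T3 w3 hw3' (fun y hy => hQ y (hT3Q y hy))
      (fun y hy z hz => hQd y (hT3Q y hy) z (hT3Q z hz)) hn3
    rw [hT3v, hU', norm_zero, ← hB, hB1] at this
    have := hpos T3.card
    linarith
  have hn3 : T3.Nonempty := by
    by_contra h
    rw [Finset.not_nonempty_iff_eq_empty] at h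
    have hB' : B = 0 := by rw [hB, h, Finset.sum_empty]
    have hU' : U = 0 := by rw [← hT3v, h, Finset.sum_empty]
    have hA1 : A = 1 := by linarith
    have := quad_lower T1 w hw1' (fun y hy => hP y (hT1' y hy))
      (fun y hy z hz => hPd y (hT1' y hy) z (hT1' z hz)) hn1
    rw [← hU, hU', norm_zero, ← hA, hA1] at this
    have := hpos T1.card
    linarith
  have q1 := quad_lower T1 w hw1' (fun y hy => hP y (hT1' y hy))
      (fun y hy z hz => hPd y (hT1' y hy) z (hT1' z hz)) hn1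
  have q2 := quad_lower T3 w3 hw3' (fun y hy => hQ y (hT3Q y hy))
      (fun y hy z hz => hQd y (hT3Q y hy) z (hT3Q z hz)) hn3
  rw [hT3v] at q2
  rw [← hU, ← hA] at q1
  rw [← hB] at q2
  have q3 : ‖U‖ ^ 2 ≤ A * B * κ := by
    have : ‖U‖ ^ 2 = ∑ y ∈ T1, ∑ z ∈ T3, w y * w3 z * (inner ℝ y z : ℝ) := by
      rw [← real_inner_self_eq_norm_sq]
      conv_lhs => rw [← hT3v, hT3v]
      nth_rewrite 2 [← hT3v]
      rw [hU, sum_inner]
      refine Finset.sum_congr rfl fun y _ => ?_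
      rw [inner_sum]
      refine Finset.sum_congr rfl fun z _ => ?_
      rw [inner_smul_left, inner_smul_right]
      simp; ring
    rw [this, hA, hB, Finset.sum_mul_sum, Finset.sum_mul]
    refine Finset.sum_le_sum fun y hy => ?_
    rw [Finset.sum_mul]
    refine Finset.sum_le_sum fun z hz => ?_
    exact mul_le_mul_of_nonneg_left (hPQ y (hT1' y hy) z (hT3Q z hz))
      (mul_nonneg (hw1' y hy) (hw3' z hz))
  have hα := hpos T1.card
  have hβ := hpos T3.card
  have hU2 : 0 ≤ ‖U‖ ^ 2 := by positivity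
  have hApos : 0 < A := by
    rcases hA0.lt_or_eq with h | h
    · exact h
    · exfalso
      rw [← h, zero_mul, zero_mul] at q3
      have : B = 1 := by linarith
      rw [this] at q2
      linarith
  have hBpos : 0 < B := by
    rcases hB0.lt_or_eq with h | h
    · exact h
    · exfalso
      rw [← h, mul_zero, zero_mul] at q3
      have : A = 1 := by linarith
      rw [this] at q1
      linarith
  have hABpos := mul_pos hApos hBpos
  have hκ : 0 < κ := by
    have h1 : 0 < A ^ 2 * (1 - d ^ 2 / 2 + d ^ 2 / 2 / T1.card) := by positivity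
    have h2 : 0 < A * B * κ := by linarith
    exact (pos_iff_pos_of_mul_pos h2).1 hABpos
  refine ⟨T1.card, T3.card, hn1.card_pos, hn3.card_pos, by rw [hT3c]; exact hcard, hκ, ?_⟩
  have h5 : (A ^ 2 * (1 - d ^ 2 / 2 + d ^ 2 / 2 / T1.card)) *
      (B ^ 2 * (1 - d ^ 2 / 2 + d ^ 2 / 2 / T3.card)) ≤ (A * B * κ) * (A * B * κ) :=
    mul_le_mul (q1.trans q3) (q2.trans q3) (by positivity) (by positivity)
  have h6 : (A * B) ^ 2 * ((1 - d ^ 2 / 2 + d ^ 2 / 2 / T1.card) *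
      (1 - d ^ 2 / 2 + d ^ 2 / 2 / T3.card)) ≤ (A * B) ^ 2 * κ ^ 2 := by nlinarith
  exact le_of_mul_le_mul_left h6 (by positivity)

end Pool.Agent.H62.Ball
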