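import Pool.Agent.H62.Ball.LowerGen
import Pool.Agent.H91.Borsuk.Borsuk

open Metric Set

namespace Pool.Agent.H62.Ball

variable {E : Type*} [NormedAddCommGroup E] [InnerProductSpace ℝ E]


/-- radial projection to the unit ball -/
noncomputable def rp (x : E) : E := (max 1 ‖x‖)⁻¹ • x

omit [InnerProductSpace ℝ E] in
theorem norm_rp [NormedSpace ℝ E] (x : E) : ‖((max 1 ‖x‖)⁻¹ • x : E)‖ = (max 1 ‖x‖)⁻¹ * ‖x‖ := by
  rw [norm_smul, norm_inv, Real.norm_of_nonneg (le_max_of_le_left zero_le_one)]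

theorem rp_le (x : E) : ‖rp x‖ ≤ 1 := by
  rw [rp, norm_rp, inv_mul_le_iff₀ (lt_of_lt_of_le one_pos (le_max_left _ _)), mul_one]
  exact le_max_right _ _

theorem rp_norm {x : E} (h : 1 ≤ ‖x‖) : ‖rp x‖ = 1 := by
  rw [rp, norm_rp, max_eq_right h]
  exact inv_mul_cancel₀ (by linarith)

theorem rp_neg (x : E) : rp (-x) = - rp x := by
  simp [rp]

theorem continuous_rp : Continuous (rp : E → E) := by
  unfold rp
  refine Continuous.smul (Continuous.inv₀ (by fun_prop) fun x => ?_) continuous_id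
  exact (lt_of_lt_of_le one_pos (le_max_left _ _)).ne'

/-- continuous approximation -/
theorem exists_approx [FiniteDimensional ℝ E] (φ : E → E) {η : ℝ} (hη : 0 < η) :
    ∃ h : E → E, Continuous h ∧
      ∀ x, h x ∈ convexHull ℝ (φ '' {z | ‖z‖ ≤ 1 ∧ ‖z - rp x‖ < η}) := by
  obtain ⟨g, hg⟩ := exists_continuous_forall_mem_convex_of_local_const (X := E) (E := E)
    (t := fun x => convexHull ℝ (φ '' {z | ‖z‖ ≤ 1 ∧ ‖z - rp x‖ < η}))
    (fun x => convex_convexHull ℝ _) (by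
      intro x
      refine ⟨φ (rp x), ?_⟩
      have hc : Filter.Tendsto (fun y : E => ‖rp x - rp y‖) (nhds x) (nhds ‖rp x - rp x‖) :=
        (continuous_const.sub continuous_rp).norm.tendsto x
      rw [sub_self, norm_zero] at hc
      filter_upwards [hc.eventually (gt_mem_nhds hη)] with y hy
      exact subset_convexHull ℝ _ ⟨rp x, ⟨rp_le x, hy⟩, rfl⟩)
  exact ⟨g, g.continuous, hg⟩

theorem inner_le_of_far {y z : E} (hy : ‖y‖ = 1) (hz : ‖z‖ = 1) {c : ℝ} (hc0 : 0 ≤ c)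
    (h : c ≤ ‖y - z‖) : (inner ℝ y z : ℝ) ≤ 1 - c ^ 2 / 2 := by
  have := norm_sub_sq_real y z
  rw [hy, hz] at this
  have h2 : c ^ 2 ≤ ‖y - z‖ ^ 2 := pow_le_pow_left₀ hc0 h 2
  linarith

theorem zero_notMem (P : Set E) (hP : ∀ y ∈ P, ‖y‖ = 1) {d : ℝ} (hd : d ^ 2 < 2)
    (hPd : ∀ y ∈ P, ∀ z ∈ P, ‖y - z‖ ≤ d) : (0 : E) ∉ convexHull ℝ P := by
  intro h
  have hne : P.Nonempty := by
    by_contra hc
    rw [Set.not_nonempty_iff_eq_empty] at hc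
    rw [hc, convexHull_empty] at h
    exact h
  obtain ⟨y, hy⟩ := hne
  have hsub : P ⊆ {z | 1 - d ^ 2 / 2 ≤ (inner ℝ y z : ℝ)} := by
    intro z hz
    have h1 := norm_sub_sq_real y z
    rw [hP y hy, hP z hz] at h1
    have h2 : ‖y - z‖ ^ 2 ≤ d ^ 2 := pow_le_pow_left₀ (norm_nonneg _) (hPd y hy z hz) 2
    simp only [mem_setOf_eq]
    linarith
  have hconv : Convex ℝ {z : E | 1 - d ^ 2 / 2 ≤ (inner ℝ y z : ℝ)} := by
    intro a ha b hb s t hs ht hst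
    simp only [mem_setOf_eq] at ha hb ⊢
    rw [inner_add_right, inner_smul_right, inner_smul_right]
    calc 1 - d ^ 2 / 2 = s * (1 - d ^ 2 / 2) + t * (1 - d ^ 2 / 2) := by rw [← add_mul, hst, one_mul]
      _ ≤ _ := add_le_add (mul_le_mul_of_nonneg_left ha hs) (mul_le_mul_of_nonneg_left hb ht)
  have h3 := convexHull_min hsub hconv h
  simp only [mem_setOf_eq, inner_zero_right] at h3
  linarith

theorem lower_gen [FiniteDimensional ℝ E] (φ : E → E) (hφ : ∀ z, ‖z‖ ≤ 1 → ‖φ z‖ = 1) {δ η : ℝ}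
    (H : ∀ z w, ‖z‖ ≤ 1 → ‖w‖ ≤ 1 → |‖z - w‖ - ‖φ z - φ w‖| ≤ δ) (hη : 0 < η)
    (hd : (δ + 2 * η) ^ 2 < 2) (hd2 : δ + 2 * η ≤ 2) :
    ∃ a b : ℕ, 1 ≤ a ∧ 1 ≤ b ∧ a + b ≤ Module.finrank ℝ E + 1 ∧
      0 < 1 - (2 - (δ + 2 * η)) ^ 2 / 2 ∧
      (1 - (δ + 2 * η) ^ 2 / 2 + (δ + 2 * η) ^ 2 / 2 / a) *
        (1 - (δ + 2 * η) ^ 2 / 2 + (δ + 2 * η) ^ 2 / 2 / b) ≤
        (1 - (2 - (δ + 2 * η)) ^ 2 / 2) ^ 2 := by
  obtain ⟨h, hc, hh⟩ := exists_approx φ hη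
  set N : E → Set E := fun x => φ '' {z | ‖z‖ ≤ 1 ∧ ‖z - rp x‖ < η} with hN
  have hN1 : ∀ x, ∀ y ∈ N x, ‖y‖ = 1 := by
    rintro x _ ⟨z, ⟨hz, _⟩, rfl⟩
    exact hφ z hz
  have hNd : ∀ x, ∀ y ∈ N x, ∀ y' ∈ N x, ‖y - y'‖ ≤ δ + 2 * η := by
    rintro x _ ⟨z, ⟨hz, hz'⟩, rfl⟩ _ ⟨w, ⟨hw, hw'⟩, rfl⟩
    have h1 := H z w hz hw
    rw [abs_le] at h1
    have h2 : ‖z - w‖ ≤ ‖z - rp x‖ + ‖w - rp x‖ := by
      rw [← norm_neg (w - rp x)]
      have := norm_add_le (z - rp x) (-(w - rp x))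
      rwa [show z - rp x + -(w - rp x) = z - w by abel] at this
    linarith [h1.1, h1.2]
  have hc2 : Continuous fun x : E => h ((2 : ℝ) • x) := hc.comp (continuous_const_smul 2)
  have hc3 : Continuous fun x : E => h (-((2 : ℝ) • x)) :=
    hc.comp (continuous_const_smul 2).neg
  have hc4 : Continuous fun x : E => max (‖(2 : ℝ) • x‖ - 1) 0 := by fun_prop
  have hodd : ∀ x : E, ‖x‖ = 1 →
      (fun x => h ((2 : ℝ) • x) - (max (‖(2 : ℝ) • x‖ - 1) 0) • h (-((2 : ℝ) • x))) (-x) =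
        - (fun x => h ((2 : ℝ) • x) - (max (‖(2 : ℝ) • x‖ - 1) 0) • h (-((2 : ℝ) • x))) x := by
    intro x hx
    have e : ‖(2 : ℝ) • x‖ = 2 := by rw [norm_smul, hx]; norm_num
    simp only [smul_neg, norm_neg, e, neg_neg]
    rw [show max ((2 : ℝ) - 1) 0 = 1 by norm_num, one_smul, one_smul]
    abel
  obtain ⟨x', hx', hx0⟩ := Pool.Agent.H91.Borsuk.borsuk_odd (E := E) (F := E) rfl
    (fun x => h ((2 : ℝ) • x) - (max (‖(2 : ℝ) • x‖ - 1) 0) • h (-((2 : ℝ) • x)))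
    (hc2.sub (hc4.smul hc3)).continuousOn hodd
  obtain ⟨x, hxx⟩ : ∃ x : E, x = (2 : ℝ) • x' := ⟨_, rfl⟩
  simp only [← hxx] at hx0
  simp only [sub_eq_zero] at hx0
  set τ := max (‖x‖ - 1) 0 with hτ
  have hτ0 : 0 ≤ τ := le_max_right _ _
  rcases hτ0.lt_or_eq with hpos | hzero
  · -- `x` outside the unit ball
    have hx1 : 1 ≤ ‖x‖ := by
      by_contra hlt
      push Not at hlt
      rw [hτ, max_eq_right (by linarith)] at hpos
      exact lt_irrefl _ hpos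
    have hrx := rp_norm hx1
    have hPQ : ∀ y ∈ N x, ∀ z ∈ N (-x), (inner ℝ y z : ℝ) ≤ 1 - (2 - (δ + 2 * η)) ^ 2 / 2 := by
      rintro _ ⟨z, ⟨hz, hz'⟩, rfl⟩ _ ⟨w, ⟨hw, hw'⟩, rfl⟩
      refine inner_le_of_far (hφ z hz) (hφ w hw) (by linarith) ?_
      have h1 := H z w hz hw
      rw [abs_le] at h1
      rw [rp_neg, sub_neg_eq_add] at hw'
      have h2 : 2 ≤ ‖z - rp x‖ + ‖z - w‖ + ‖w + rp x‖ := by
        have e1 : (2 : ℝ) • rp x = -(z - rp x) + (z - w) + (w + rp x) := by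
          rw [two_smul]; abel
        have e2 : ‖(2 : ℝ) • rp x‖ = 2 := by rw [norm_smul, hrx]; norm_num
        rw [← e2, e1]
        refine (norm_add_le _ _).trans ?_
        have := norm_add_le (-(z - rp x)) (z - w)
        rw [norm_neg] at this
        linarith
      linarith [h1.1, h1.2]
    obtain ⟨a, b, ha, hb, hab, hκ, hfin⟩ := crossing (N x) (N (-x)) (hN1 x) (hN1 _) hd (hNd x)
      (hNd _) hPQ hτ0 (hh x) (hh (-x)) hx0
    exact ⟨a, b, ha, hb, hab, hκ, hfin⟩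
  · -- `h x = 0`: impossible
    exfalso
    rw [← hzero, zero_smul] at hx0
    have h1 := hh x
    rw [hx0] at h1
    exact zero_notMem (N x) (hN1 x) hd (hNd x) h1

end Pool.Agent.H62.Ball
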