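import Pool.Agent.H62.Ball.Sound4

open Real Metric GromovHausdorff

namespace Pool.Agent.H62.Ball

variable {E : Type*} [NormedAddCommGroup E] [InnerProductSpace ℝ E]


theorem decomp {e w : E} (he : ‖e‖ = 1) (hw : ‖w‖ = 1) (hew : (inner ℝ e w : ℝ) = 0) (x : E) :
    ∃ (a b : ℝ) (u : E), 0 ≤ b ∧ ‖u‖ = 1 ∧ (inner ℝ e u : ℝ) = 0 ∧ x = a • e + b • u := by
  have hee : (inner ℝ e e : ℝ) = 1 := by rw [real_inner_self_eq_norm_sq, he]; norm_num
  by_cases h : x - (inner ℝ e x : ℝ) • e = 0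
  · refine ⟨(inner ℝ e x : ℝ), 0, w, le_rfl, hw, hew, ?_⟩
    rw [sub_eq_zero] at h
    rw [zero_smul, add_zero]; exact h
  · have hn : ‖x - (inner ℝ e x : ℝ) • e‖ ≠ 0 := norm_ne_zero_iff.2 h
    refine ⟨(inner ℝ e x : ℝ), ‖x - (inner ℝ e x : ℝ) • e‖, (‖x - (inner ℝ e x : ℝ) • e‖)⁻¹ • (x - (inner ℝ e x : ℝ) • e), norm_nonneg _,
      ?_, ?_, ?_⟩
    · rw [norm_smul, norm_inv, norm_norm, inv_mul_cancel₀ hn]
    · rw [inner_smul_right, inner_sub_right, inner_smul_right, hee, mul_one, sub_self, mul_zero]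
    · rw [smul_smul, mul_inv_cancel₀ hn, one_smul]; abel

theorem norm_comb {e u : E} (he : ‖e‖ = 1) (hu : ‖u‖ = 1) (heu : (inner ℝ e u : ℝ) = 0) (a b : ℝ) :
    ‖a • e + b • u‖ ^ 2 = a ^ 2 + b ^ 2 := by
  rw [norm_add_sq_real, norm_smul, norm_smul, inner_smul_left, inner_smul_right, heu, he, hu]
  simp

theorem norm_comb_sub {e u u' : E} (he : ‖e‖ = 1) (hu : ‖u‖ = 1) (hu' : ‖u'‖ = 1)
    (heu : (inner ℝ e u : ℝ) = 0) (heu' : (inner ℝ e u' : ℝ) = 0) (a b a' b' : ℝ) :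
    ‖(a • e + b • u) - (a' • e + b' • u')‖ ^ 2 =
      (a - a') ^ 2 + b ^ 2 + b' ^ 2 - 2 * b * b' * (inner ℝ u u' : ℝ) := by
  have hee : (inner ℝ e e : ℝ) = 1 := by rw [real_inner_self_eq_norm_sq, he]; norm_num
  rw [norm_sub_sq_real, norm_comb he hu heu, norm_comb he hu' heu', inner_add_left, inner_add_right,
    inner_add_right, inner_smul_left, inner_smul_left, inner_smul_left, inner_smul_left,
    inner_smul_right, inner_smul_right, inner_smul_right, inner_smul_right, hee, heu',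
    real_inner_comm e u, heu]
  simp
  ring

theorem upper_of_plane [FiniteDimensional ℝ E] [Nonempty (sphere (0 : E) 1)] {r : ℝ}
    (hr : 0 < r) {P : ℝ → ℝ → ℝ → Prop}
    (h1 : ∀ x y, 0 ≤ y → x ^ 2 + y ^ 2 ≤ 1 → ∃ θ, 0 ≤ θ ∧ θ ≤ π / 2 ∧ P x y θ)
    (h2 : ∀ θ, 0 ≤ θ → θ ≤ π / 2 → ∃ x y, 0 ≤ y ∧ x ^ 2 + y ^ 2 ≤ 1 ∧ P x y θ)
    (h3 : ∀ x y θ x' y' θ', P x y θ → P x' y' θ' → x ^ 2 + y ^ 2 ≤ 1 → x' ^ 2 + y' ^ 2 ≤ 1 →
        |√((x - x') ^ 2 + (y - y') ^ 2) - √((2 * sin (θ - θ')) ^ 2)| ≤ r ∧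
        |√((x - x') ^ 2 + (y + y') ^ 2) - √((2 * sin (θ + θ')) ^ 2)| ≤ r)
    {e w : E} (he : ‖e‖ = 1) (hw : ‖w‖ = 1) (hew : (inner ℝ e w : ℝ) = 0) :
    ghDist (closedBall (0 : E) 1) (sphere (0 : E) 1) ≤ r / 2 := by
  refine ghDist_le_of_rel (fun (x : closedBall (0 : E) 1) (v : sphere (0 : E) 1) =>
    ∃ (a b θ : ℝ) (u : E), ‖u‖ = 1 ∧ (inner ℝ e u : ℝ) = 0 ∧ a ^ 2 + b ^ 2 ≤ 1 ∧ P a b θ ∧
      (x : E) = a • e + b • u ∧ (v : E) = cos (2 * θ) • e + sin (2 * θ) • u)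
    (by linarith) ?_ ?_ ?_
  · rintro ⟨x, hx⟩
    rw [mem_closedBall_zero_iff] at hx
    obtain ⟨a, b, u, hb, hu, heu, hxe⟩ := decomp he hw hew x
    have hab : a ^ 2 + b ^ 2 ≤ 1 := by
      rw [← norm_comb he hu heu, ← hxe]
      exact pow_le_one₀ (norm_nonneg _) hx
    obtain ⟨θ, t0, t1, hP⟩ := h1 a b hb hab
    refine ⟨⟨cos (2 * θ) • e + sin (2 * θ) • u, ?_⟩, a, b, θ, u, hu, heu, hab, hP, hxe, rfl⟩
    rw [mem_sphere_zero_iff_norm, ← pow_eq_one_iff_of_nonneg (norm_nonneg _) two_ne_zero,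
      norm_comb he hu heu]
    exact Real.cos_sq_add_sin_sq _
  · rintro ⟨v, hv⟩
    rw [mem_sphere_zero_iff_norm] at hv
    obtain ⟨a, b, u, hb, hu, heu, hxe⟩ := decomp he hw hew v
    have hab : a ^ 2 + b ^ 2 = 1 := by
      rw [← norm_comb he hu heu, ← hxe, hv]; norm_num
    have ha : |a| ≤ 1 := by rw [← sq_le_one_iff_abs_le_one]; nlinarith
    rw [abs_le] at ha
    have e1 : 2 * (arccos a / 2) = arccos a := by ring
    obtain ⟨x, y, hy, hxy, hP⟩ := h2 (arccos a / 2) (by linarith [arccos_nonneg a])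
      (by linarith [arccos_le_pi a])
    refine ⟨⟨x • e + y • u, ?_⟩, x, y, arccos a / 2, u, hu, heu, hxy, hP, rfl, ?_⟩
    · rw [mem_closedBall_zero_iff, ← sq_le_one_iff₀ (norm_nonneg _), norm_comb he hu heu]
      exact hxy
    · rw [e1, cos_arccos ha.1 ha.2, sin_arccos]
      have : √(1 - a ^ 2) = b := by
        rw [show 1 - a ^ 2 = b ^ 2 by linarith, Real.sqrt_sq hb]
      rw [this]; exact hxe
  · rintro x v x' v' ⟨a, b, θ, u, hu, heu, hab, hP, hxe, hve⟩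
      ⟨a', b', θ', u', hu', heu', hab', hP', hxe', hve'⟩
    obtain ⟨k1, k2⟩ := h3 a b θ a' b' θ' hP hP' hab hab'
    have hκ : |(inner ℝ u u' : ℝ)| ≤ 1 := by
      have := abs_real_inner_le_norm u u'
      rwa [hu, hu', one_mul] at this
    rw [abs_le] at hκ
    have hκ1 := hκ.1
    have hκ2 := hκ.2
    have key := sqrt_conv (l := (1 - (inner ℝ u u' : ℝ)) / 2) (by positivity) (by positivity) (by positivity)
      (by positivity) (by linarith) (by linarith) k1 k2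
    have d1 : dist x x' =
        √((1 - (1 - (inner ℝ u u' : ℝ)) / 2) * ((a - a') ^ 2 + (b - b') ^ 2) +
          (1 - (inner ℝ u u' : ℝ)) / 2 * ((a - a') ^ 2 + (b + b') ^ 2)) := by
      rw [Subtype.dist_eq, dist_eq_norm, ← Real.sqrt_sq (norm_nonneg _)]
      rw [hxe, hxe', norm_comb_sub he hu hu' heu heu']
      congr 1; ring
    have d2 : dist v v' =
        √((1 - (1 - (inner ℝ u u' : ℝ)) / 2) * ((2 * sin (θ - θ')) ^ 2) +
          (1 - (inner ℝ u u' : ℝ)) / 2 * ((2 * sin (θ + θ')) ^ 2)) := by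
      rw [Subtype.dist_eq, dist_eq_norm, ← Real.sqrt_sq (norm_nonneg _)]
      rw [hve, hve', norm_comb_sub he hu hu' heu heu']
      congr 1
      rw [sin_sub, sin_add, cos_two_mul, cos_two_mul, sin_two_mul, sin_two_mul]
      have e1 := Real.sin_sq_add_cos_sq θ
      have e2 := Real.sin_sq_add_cos_sq θ'
      have f1 : sin θ ^ 2 = 1 - cos θ ^ 2 := by linarith
      have f2 : sin θ' ^ 2 = 1 - cos θ' ^ 2 := by linarith
      have g : ∀ c d s t κ : ℝ, s ^ 2 = 1 - c ^ 2 → t ^ 2 = 1 - d ^ 2 →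
          (2 * c ^ 2 - 1 - (2 * d ^ 2 - 1)) ^ 2 + (2 * s * c) ^ 2 + (2 * t * d) ^ 2 -
            2 * (2 * s * c) * (2 * t * d) * κ =
          (1 - (1 - κ) / 2) * (2 * (s * d - c * t)) ^ 2 +
            (1 - κ) / 2 * (2 * (s * d + c * t)) ^ 2 := by
        intro c d s t κ hs ht
        have : (2 * s * c) ^ 2 = 4 * c ^ 2 * (1 - c ^ 2) := by rw [← hs]; ring
        have : (2 * t * d) ^ 2 = 4 * d ^ 2 * (1 - d ^ 2) := by rw [← ht]; ring
        have h1 : (s * d - c * t) ^ 2 = (1 - c ^ 2) * d ^ 2 + c ^ 2 * (1 - d ^ 2) -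
          2 * (s * c * t * d) := by rw [← hs, ← ht]; ring
        have h2 : (s * d + c * t) ^ 2 = (1 - c ^ 2) * d ^ 2 + c ^ 2 * (1 - d ^ 2) +
          2 * (s * c * t * d) := by rw [← hs, ← ht]; ring
        rw [mul_pow 2, mul_pow 2, h1, h2]
        nlinarith
      exact g _ _ _ _ _ f1 f2
    rw [d1, d2]
    linarith [key]

end Pool.Agent.H62.Ball
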