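import Pool.Agent.H62.Ball.Def
import Pool.Agent.H62.Ball.Upper
import Pool.Agent.H62.Ball.LowerGen2

open Real Metric GromovHausdorff

namespace Pool.Agent.H62.Ball

/-- the cubic of the problem for `m = 1` is strictly increasing -/
theorem cubic_mono {x y : ℝ} (h : x < y) (hy : y ≤ 1) :
    4 * x ^ 3 - 16 * x ^ 2 + 21 * x - 8 < 4 * y ^ 3 - 16 * y ^ 2 + 21 * y - 8 := by
  have h1 : 0 < y - x := by linarith
  have key : 0 < 4 * (x ^ 2 + x * y + y ^ 2) - 16 * (x + y) + 21 := by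
    nlinarith [sq_nonneg (x - y), sq_nonneg (x + y - 2), mul_nonneg (sub_nonneg.2 hy) (sub_nonneg.2 (h.le.trans hy)),
      sq_nonneg (x - 1), sq_nonneg (y - 1)]
  nlinarith [mul_pos h1 key]

theorem exists_root : ∃ t : ℝ, 0.652189 < t ∧ t < 0.652190 ∧
    4 * t ^ 3 - 16 * t ^ 2 + 21 * t - 8 = 0 := by
  have hc : ContinuousOn (fun t : ℝ => 4 * t ^ 3 - 16 * t ^ 2 + 21 * t - 8)
      (Set.Icc 0.652189 0.652190) := by fun_prop
  have := intermediate_value_Icc (by norm_num) hc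
  have h0 : (0 : ℝ) ∈ Set.Icc ((fun t : ℝ => 4 * t ^ 3 - 16 * t ^ 2 + 21 * t - 8) 0.652189)
      ((fun t : ℝ => 4 * t ^ 3 - 16 * t ^ 2 + 21 * t - 8) 0.652190) := by
    constructor <;> norm_num
  obtain ⟨t, ht, hf⟩ := this h0
  refine ⟨t, lt_of_le_of_ne ht.1 ?_, lt_of_le_of_ne ht.2 ?_, hf⟩
  · rintro rfl; norm_num at hf
  · rintro rfl; norm_num at hf

theorem upper {t : ℝ} (ht : 4 * t ^ 3 - 16 * t ^ 2 + 21 * t - 8 = 0) (ht1 : t ≤ 1) {m : ℕ}
    (hm : 1 ≤ m) : dGH m ≤ t := by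
  have b0 : 1 - 0.3478104146 < t := by
    by_contra hc
    push Not at hc
    rcases hc.lt_or_eq with h | h
    · have := cubic_mono h (by norm_num)
      rw [ht] at this
      norm_num at this
    · rw [h] at ht; norm_num at ht
  have b1 : t < 1 - 0.3478103323 := by
    by_contra hc
    push Not at hc
    rcases hc.lt_or_eq with h | h
    · have := cubic_mono h ht1
      rw [ht] at this
      norm_num at this
    · rw [← h] at ht; norm_num at ht
  set s := 1 - t with hs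
  have s0 : 0 < s := by rw [hs]; linarith
  have hs1 : s < 0.3478104146 := by rw [hs]; linarith
  have hs2 : 0.3478103323 < s := by rw [hs]; linarith
  have hcub : 4 * s ^ 3 + 4 * s ^ 2 + s = 1 := by rw [hs]; linarith
  have hD2 : sin (2 * arcsin s / 2) = s := by
    rw [mul_div_cancel_left₀ _ two_ne_zero]
    exact sin_arcsin (by linarith) (by linarith)
  have hcos : cos (2 * arcsin s / 2) = √(1 - s ^ 2) := by
    rw [mul_div_cancel_left₀ _ two_ne_zero, cos_arcsin]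
  have hsq : √(1 - s ^ 2) ^ 2 = 1 - s ^ 2 := Real.sq_sqrt (by nlinarith)
  have hsq0 : 0 ≤ √(1 - s ^ 2) := Real.sqrt_nonneg _
  have hc : Cst s (2 * arcsin s) (2 * (1 - s)) := by
    refine ⟨s0, rfl, by linarith, hD2, ?_, by linarith [arcsin_nonneg.2 s0.le],
      by linarith [arcsin_le_pi_div_two s]⟩
    rw [sin_two_mul, sin_arcsin (by linarith) (by linarith), cos_arcsin]
    have : (2 * s * √(1 - s ^ 2)) ^ 2 = (1 - s) ^ 2 := by
      rw [mul_pow, hsq]
      have : (1 - s) * (4 * s ^ 3 + 4 * s ^ 2 + s - 1) = 0 := by rw [hcub]; ring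
      nlinarith
    have h3 := abs_eq_abs.2 (sq_eq_sq_iff_eq_or_eq_neg.1 this)
    rwa [abs_of_nonneg (by positivity), abs_of_nonneg (by linarith)] at h3
  obtain ⟨P, h1, h2, h3⟩ := plane_rel hc (by
      rw [hcos]
      apply le_of_sq_le_sq _ (by positivity)
      rw [mul_pow, hsq]; nlinarith) (by
      rw [hcos]
      apply le_of_sq_le_sq _ (by positivity)
      rw [mul_pow 3709721, hsq]; nlinarith)
  have hne : (⟨0, by omega⟩ : Fin (m + 1)) ≠ ⟨1, by omega⟩ := by
    intro h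
    have := congrArg Fin.val h
    simp at this
  have := upper_of_plane (E := EuclideanSpace ℝ (Fin (m + 1))) (r := 2 * (1 - s))
    (by linarith) h1 h2 h3 (e := EuclideanSpace.single ⟨0, by omega⟩ 1)
    (w := EuclideanSpace.single ⟨1, by omega⟩ 1)
    (by simp) (by simp) (by
      rw [EuclideanSpace.inner_single_left]
      simp [hne])
  rw [dGH]
  linarith

theorem lower_poly {N K a b : ℕ} (ha : 1 ≤ a) (hb : 1 ≤ b) (hab : a + b ≤ N) (hK : K = N ^ 2 / 4)
    {t : ℝ} (ht0 : 0 < t) (ht : t < 0.7)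
    (h : (1 - (2 * t) ^ 2 / 2 + (2 * t) ^ 2 / 2 / a) * (1 - (2 * t) ^ 2 / 2 + (2 * t) ^ 2 / 2 / b)
      ≤ (1 - (2 - 2 * t) ^ 2 / 2) ^ 2) :
    t * (N - 2 * (N - 1) * t ^ 2) ≤ 4 * K * ((2 * t - 1) * (1 - t)) := by
  obtain ⟨b', hb'⟩ : ∃ b', a + b' = N := ⟨N - a, by omega⟩
  have hbb : b ≤ b' := by omega
  have hK' : a * b' ≤ K := by
    rw [hK, Nat.le_div_iff_mul_le (by norm_num), ← hb']
    zify
    nlinarith [sq_nonneg ((a : ℤ) - b')]
  have ha' : (0 : ℝ) < a := by exact_mod_cast ha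
  have hb'' : (0 : ℝ) < b := by exact_mod_cast hb
  have hbb' : (b : ℝ) ≤ b' := by exact_mod_cast hbb
  have hb0 : (0 : ℝ) < b' := by linarith
  have hKr : (a : ℝ) * b' ≤ K := by exact_mod_cast hK'
  have hN : (a : ℝ) + b' = N := by exact_mod_cast hb'
  set c : ℝ := 2 * t ^ 2 with hc
  have hc0 : 0 < c := by positivity
  have hc1 : c < 1 := by rw [hc]; nlinarith
  have e1 : (2 * t) ^ 2 / 2 = c := by rw [hc]; ring
  have e2 : 1 - (2 - 2 * t) ^ 2 / 2 = 4 * t - 1 - c := by rw [hc]; ring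
  rw [e1, e2] at h
  have h2 : (1 - c + c / a) * (1 - c + c / b') ≤ (4 * t - 1 - c) ^ 2 := by
    refine le_trans (mul_le_mul_of_nonneg_left ?_ ?_) h
    · have := div_le_div_of_nonneg_left hc0.le hb'' hbb'
      linarith
    · have : 0 < c / a := by positivity
      linarith
  have hab0 : (0 : ℝ) < a * b' := by positivity
  have hK0 : (0 : ℝ) < K := lt_of_lt_of_le hab0 hKr
  have h3 : (1 - c + c / a) * (1 - c + c / b') =
      (1 - c) ^ 2 + (c * (1 - c) * N + c ^ 2) / (a * b') := by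
    rw [← hN]; field_simp; ring
  have h4 : (c * (1 - c) * N + c ^ 2) / K ≤ (c * (1 - c) * N + c ^ 2) / (a * b') := by
    refine div_le_div_of_nonneg_left ?_ hab0 hKr
    have : 0 ≤ c * (1 - c) * N := by
      have : 0 ≤ 1 - c := by linarith
      positivity
    positivity
  have h5 : (c * (1 - c) * N + c ^ 2) / K ≤ (4 * t - 1 - c) ^ 2 - (1 - c) ^ 2 := by linarith
  rw [div_le_iff₀ hK0] at h5
  have h6 : (2 * t) * (t * (N - 2 * (N - 1) * t ^ 2)) ≤
      (2 * t) * (4 * K * ((2 * t - 1) * (1 - t))) := by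
    calc (2 * t) * (t * (N - 2 * (N - 1) * t ^ 2)) = c * (1 - c) * N + c ^ 2 := by
          rw [hc]; ring
      _ ≤ _ := h5
      _ = _ := by rw [hc]; ring
  exact le_of_mul_le_mul_left h6 (by positivity)

theorem lower_of_gt {m : ℕ} {t : ℝ} (ht0 : 0 < t) (ht : t < 0.7) (h : dGH m < t) :
    t * ((m + 2) - 2 * (m + 1) * t ^ 2) ≤
      4 * (((m + 2) ^ 2 / 4 : ℕ) : ℝ) * ((2 * t - 1) * (1 - t)) := by
  obtain ⟨ε, h1, h2⟩ := exists_between h
  obtain ⟨f, hf⟩ := exists_map_of_ghDist_lt h1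
  classical
  set φ : EuclideanSpace ℝ (Fin (m + 1)) → EuclideanSpace ℝ (Fin (m + 1)) :=
    fun z => if h : z ∈ closedBall (0 : EuclideanSpace ℝ (Fin (m + 1))) 1 then (f ⟨z, h⟩ : _) else 0
    with hφ
  obtain ⟨a, b, ha, hb, hab, _, hfin⟩ := lower_gen φ (by
      intro z hz
      have hz' : z ∈ closedBall (0 : EuclideanSpace ℝ (Fin (m + 1))) 1 := by simpa using hz
      simp only [hφ, dif_pos hz']
      exact mem_sphere_zero_iff_norm.1 (f ⟨z, hz'⟩).2) (δ := 2 * ε) (η := t - ε) (by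
      intro z w hz hw
      have hz' : z ∈ closedBall (0 : EuclideanSpace ℝ (Fin (m + 1))) 1 := by simpa using hz
      have hw' : w ∈ closedBall (0 : EuclideanSpace ℝ (Fin (m + 1))) 1 := by simpa using hw
      simp only [hφ, dif_pos hz', dif_pos hw']
      have := (hf ⟨z, hz'⟩ ⟨w, hw'⟩).le
      rwa [Subtype.dist_eq, Subtype.dist_eq, dist_eq_norm, dist_eq_norm] at this) (by linarith)
      (by rw [show 2 * ε + 2 * (t - ε) = 2 * t by ring]; nlinarith) (by linarith)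
  rw [show 2 * ε + 2 * (t - ε) = 2 * t by ring] at hfin
  have := lower_poly (N := m + 2) (K := (m + 2) ^ 2 / 4) ha hb (by
    rw [finrank_euclideanSpace_fin] at hab; omega) rfl ht0 ht hfin
  push_cast at this ⊢
  have e : ((m : ℝ) + 2 - 1) = m + 1 := by ring
  rw [e] at this
  exact this

end Pool.Agent.H62.Ball
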