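import Mathlib
import Pool.Agent.H62.Ball.Cert
import Pool.Agent.H62.Ball.GH

open Real

namespace Pool.Agent.H62.Ball

open It

theorem le_mx_left (a b : ℕ) : a ≤ mx a b := by
  simp only [mx, Nat.add_eq, Nat.sub_eq]; omega

theorem le_mx_right (a b : ℕ) : b ≤ mx a b := by
  simp only [mx, Nat.add_eq, Nat.sub_eq]; omega

theorem le_mn {a b : ℕ} {x : ℝ} (ha : x ≤ a) (hb : x ≤ b) : x ≤ mn a b := by
  have : mn a b = a ∨ mn a b = b := by
    simp only [mn, Nat.sub_eq]; omega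
  rcases this with h | h <;> rw [h] <;> assumption

theorem chkU_sound {G N s : ℕ} (h : chkU G N s = true) :
    2 * 12800 * (s : ℝ) ≤ √N * (√G + 16696) := by
  simp only [chkU, It.sq, Nat.mul_eq, Nat.add_eq, Nat.sub_eq, Nat.ble_eq] at h
  set X : ℕ := 655360000 * (s * s) - N * (G + 278756416) with hX
  have h1 : 655360000 * (s * s) ≤ X + N * (G + 278756416) := by omega
  have h1' : (655360000 : ℝ) * (s * s) ≤ X + N * (G + 278756416) := by exact_mod_cast h1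
  have h2 : (X : ℝ) * X ≤ 1115025664 * ((N : ℝ) * N * G) := by exact_mod_cast h
  have hN : √(N : ℝ) ^ 2 = N := Real.sq_sqrt (Nat.cast_nonneg _)
  have hG : √(G : ℝ) ^ 2 = G := Real.sq_sqrt (Nat.cast_nonneg _)
  have hN0 := Real.sqrt_nonneg (N : ℝ)
  have hG0 := Real.sqrt_nonneg (G : ℝ)
  have h3 : (X : ℝ) ≤ 33392 * N * √G := by
    apply le_of_sq_le_sq _ (by positivity)
    calc (X : ℝ) ^ 2 = X * X := by ring
      _ ≤ _ := h2
      _ = (33392 * N * √G) ^ 2 := by rw [mul_pow, mul_pow, hG]; ring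
  apply le_of_sq_le_sq _ (by positivity)
  calc (2 * 12800 * (s : ℝ)) ^ 2 = 655360000 * (s * s) := by ring
    _ ≤ X + N * (G + 278756416) := h1'
    _ ≤ 33392 * N * √G + N * (G + 278756416) := by linarith
    _ = N * (G + 33392 * √G + 278756416) := by ring
    _ = (√N * (√G + 16696)) ^ 2 := by rw [mul_pow, hN, add_sq, hG]; ring

theorem chkL_sound {M N s : ℕ} (h : chkL M N s = true) :
    √N * √M ≤ 2 * 12800 * (s : ℝ) + √N * 16696 := by
  simp only [chkL, It.sq, Nat.mul_eq, Nat.add_eq, Nat.sub_eq, Nat.ble_eq] at h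
  set X : ℕ := N * M - (655360000 * (s * s) + 278756416 * N) with hX
  have h1 : N * M ≤ X + (655360000 * (s * s) + 278756416 * N) := by omega
  have h1' : (N : ℝ) * M ≤ X + (655360000 * (s * s) + 278756416 * N) := by exact_mod_cast h1
  have h2 : (X : ℝ) * X ≤ 730743219159040000 * ((s : ℝ) * s * N) := by exact_mod_cast h
  have hN : √(N : ℝ) ^ 2 = N := Real.sq_sqrt (Nat.cast_nonneg _)
  have hM : √(M : ℝ) ^ 2 = M := Real.sq_sqrt (Nat.cast_nonneg _)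
  have hN0 := Real.sqrt_nonneg (N : ℝ)
  have hM0 := Real.sqrt_nonneg (M : ℝ)
  have h3 : (X : ℝ) ≤ 854835200 * s * √N := by
    apply le_of_sq_le_sq _ (by positivity)
    calc (X : ℝ) ^ 2 = X * X := by ring
      _ ≤ _ := h2
      _ = (854835200 * s * √N) ^ 2 := by rw [mul_pow, mul_pow, hN]; ring
  apply le_of_sq_le_sq _ (by positivity)
  calc (√N * √M) ^ 2 = (N : ℝ) * M := by rw [mul_pow, hN, hM]
    _ ≤ X + (655360000 * (s * s) + 278756416 * N) := h1'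
    _ ≤ 854835200 * s * √N + (655360000 * (s * s) + 278756416 * N) := by linarith
    _ = (2 * 12800 * (s : ℝ) + √N * 16696) ^ 2 := by rw [add_sq, mul_pow _ (16696 : ℝ), hN]; ring

/-- direction of a nonnegative integer vector -/
theorem exists_ang (p q : ℕ) (h : 0 < n2 p q) :
    ∃ t, 0 ≤ t ∧ t ≤ π / 2 ∧ √(n2 p q : ℕ) * cos t = p ∧ √(n2 p q : ℕ) * sin t = q := by
  set z : ℂ := ⟨p, q⟩ with hz
  have hn : ((n2 p q : ℕ) : ℝ) = (p : ℝ) ^ 2 + (q : ℝ) ^ 2 := by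
    simp only [n2, Nat.add_eq, Nat.mul_eq]; push_cast; ring
  have hn0 : (0 : ℝ) < (n2 p q : ℕ) := by exact_mod_cast h
  have hnorm : ‖z‖ = √(n2 p q : ℕ) := by
    rw [hn, ← Complex.norm_add_mul_I]
    congr 1
    rw [hz]
    apply Complex.ext <;> simp
  have hz0 : z ≠ 0 := by
    intro h0
    rw [h0, norm_zero] at hnorm
    have := Real.sqrt_pos.2 hn0
    linarith
  refine ⟨Complex.arg z, ?_, ?_, ?_, ?_⟩
  · rw [Complex.arg_nonneg_iff]; simp [hz]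
  · rw [Complex.arg_le_pi_div_two_iff]; left; simp [hz]
  · rw [Complex.cos_arg hz0, ← hnorm, mul_div_cancel₀ _ (norm_ne_zero_iff.2 hz0)]
  · rw [Complex.sin_arg, ← hnorm, mul_div_cancel₀ _ (norm_ne_zero_iff.2 hz0)]

/-- The relation attached to an item: abscissa, ordinate, half angle. -/
structure Mem (D : ℝ) (a : It) (x y θ : ℝ) : Prop where
  x0 : (a.x0 : ℝ) ≤ 12800 * (x + 1)
  x1 : 12800 * (x + 1) ≤ a.x1
  y0 : (a.y0 : ℝ) ≤ 12800 * y
  y1 : 12800 * y ≤ a.y1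
  t0 : 0 ≤ θ
  t1 : θ ≤ π / 2
  u0 : (a.q0 : ℝ) * cos θ ≤ a.p0 * sin θ
  u1 : (a.p1 : ℝ) * sin θ ≤ a.q1 * cos θ
  k1 : a.k = 1 → θ = D / 2
  k2 : a.k = 2 → θ = 0

theorem ang_le_of_cross {p q : ℕ} {t θ : ℝ} (hn : 0 < √(n2 p q : ℕ)) (h0 : 0 ≤ t) (h1 : t ≤ π / 2)
    (hc : √(n2 p q : ℕ) * cos t = p) (hs : √(n2 p q : ℕ) * sin t = q) (hθ0 : 0 ≤ θ)
    (hθ1 : θ ≤ π / 2) (h : (p : ℝ) * sin θ ≤ q * cos θ) : θ ≤ t := by
  by_contra hlt
  push Not at hlt
  have hpi := Real.pi_pos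
  rw [← hc, ← hs] at h
  have h2 : √(n2 p q : ℕ) * sin (θ - t) ≤ 0 := by
    rw [Real.sin_sub]; linarith
  have h3 : 0 < sin (θ - t) := Real.sin_pos_of_pos_of_lt_pi (by linarith) (by linarith)
  have := mul_pos hn h3
  linarith

theorem le_ang_of_cross {p q : ℕ} {t θ : ℝ} (hn : 0 < √(n2 p q : ℕ)) (h0 : 0 ≤ t) (h1 : t ≤ π / 2)
    (hc : √(n2 p q : ℕ) * cos t = p) (hs : √(n2 p q : ℕ) * sin t = q) (hθ0 : 0 ≤ θ)
    (hθ1 : θ ≤ π / 2) (h : (q : ℝ) * cos θ ≤ p * sin θ) : t ≤ θ := by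
  by_contra hlt
  push Not at hlt
  have hpi := Real.pi_pos
  rw [← hc, ← hs] at h
  have h2 : √(n2 p q : ℕ) * sin (t - θ) ≤ 0 := by
    rw [Real.sin_sub]; linarith
  have h3 : 0 < sin (t - θ) := Real.sin_pos_of_pos_of_lt_pi (by linarith) (by linarith)
  have := mul_pos hn h3
  linarith

end Pool.Agent.H62.Ball
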