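import Pool.Agent.H62.Ball.Sound

open Real

namespace Pool.Agent.H62.Ball

open It

theorem sub_le_natsub (a b : ℕ) : (a : ℝ) - b ≤ ((a - b : ℕ) : ℝ) := by
  rcases le_total b a with h | h
  · rw [Nat.cast_sub h]
  · rw [Nat.sub_eq_zero_of_le h]; simp; exact_mod_cast h

theorem gap_le {a0 a1 b0 b1 : ℕ} {X Y : ℝ} (h0 : (a0 : ℝ) ≤ X) (h1 : X ≤ a1) (h2 : (b0 : ℝ) ≤ Y)
    (h3 : Y ≤ b1) : ((b0 - a1 + (a0 - b1) : ℕ) : ℝ) ≤ |X - Y| := by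
  have ha : a0 ≤ a1 := by exact_mod_cast h0.trans h1
  have hb : b0 ≤ b1 := by exact_mod_cast h2.trans h3
  rcases le_total b0 a1 with h | h
  · rcases le_total a0 b1 with h' | h'
    · rw [Nat.sub_eq_zero_of_le h, Nat.sub_eq_zero_of_le h']; simp
    · rw [Nat.sub_eq_zero_of_le h, zero_add, Nat.cast_sub h']
      exact le_trans (by linarith) (le_abs_self _)
  · rw [Nat.sub_eq_zero_of_le (show a0 ≤ b1 by omega), add_zero, Nat.cast_sub h, abs_sub_comm]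
    exact le_trans (by linarith) (le_abs_self _)

theorem far_le {a0 a1 b0 b1 : ℕ} {X Y : ℝ} (h0 : (a0 : ℝ) ≤ X) (h1 : X ≤ a1) (h2 : (b0 : ℝ) ≤ Y)
    (h3 : Y ≤ b1) : |X - Y| ≤ (mx (a1 - b0) (b1 - a0) : ℕ) := by
  have e1 := sub_le_natsub a1 b0
  have e2 := sub_le_natsub b1 a0
  have f1 : ((a1 - b0 : ℕ) : ℝ) ≤ (mx (a1 - b0) (b1 - a0) : ℕ) := by exact_mod_cast le_mx_left _ _
  have f2 : ((b1 - a0 : ℕ) : ℝ) ≤ (mx (a1 - b0) (b1 - a0) : ℕ) := by exact_mod_cast le_mx_right _ _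
  rw [abs_le]; constructor <;> linarith

theorem h_ge (x y : ℕ) : (12800 : ℝ) * (x + y) - x * y ≤ (h x y : ℕ) := by
  simp only [h, Nat.add_eq, Nat.mul_eq, Nat.sub_eq]
  have := sub_le_natsub (12800 * (x + y)) (x * y)
  push_cast at this ⊢
  linarith

theorem hm_ge {a b : It} {X Y : ℝ} (h0 : (a.x0 : ℝ) ≤ X) (h1 : X ≤ a.x1) (h2 : (b.x0 : ℝ) ≤ Y)
    (h3 : Y ≤ b.x1) : 12800 * (X + Y) - X * Y ≤ (hm a b : ℕ) := by
  have c1 : (h a.x0 b.x0 : ℝ) ≤ (hm a b : ℕ) := by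
    exact_mod_cast (le_mx_left _ _).trans (le_mx_left _ _)
  have c2 : (h a.x0 b.x1 : ℝ) ≤ (hm a b : ℕ) := by
    exact_mod_cast (le_mx_right _ _).trans (le_mx_left _ _)
  have c3 : (h a.x1 b.x0 : ℝ) ≤ (hm a b : ℕ) := by
    exact_mod_cast (le_mx_left _ _).trans (le_mx_right _ _)
  have c4 : (h a.x1 b.x1 : ℝ) ≤ (hm a b : ℕ) := by
    exact_mod_cast (le_mx_right _ _).trans (le_mx_right _ _)
  have d1 := (h_ge a.x0 b.x0).trans c1
  have d2 := (h_ge a.x0 b.x1).trans c2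
  have d3 := (h_ge a.x1 b.x0).trans c3
  have d4 := (h_ge a.x1 b.x1).trans c4
  set K : ℝ := ((hm a b : ℕ) : ℝ)
  -- for fixed second coordinate at the two ends
  have step : ∀ Z : ℝ, (b.x0 : ℝ) ≤ Z → Z ≤ b.x1 →
      ∀ W : ℝ, 12800 * (W + b.x0) - W * b.x0 ≤ K → 12800 * (W + b.x1) - W * b.x1 ≤ K →
      12800 * (W + Z) - W * Z ≤ K := by
    intro Z z0 z1 W w0 w1
    rcases le_total W 12800 with hW | hW
    · nlinarith
    · nlinarith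
  have e0 := step Y h2 h3 a.x0 d1 d2
  have e1 := step Y h2 h3 a.x1 d3 d4
  rcases le_total Y 12800 with hY | hY
  · nlinarith
  · nlinarith

section geo

variable {D : ℝ} {a b : It} {x y θ x' y' θ' : ℝ}

theorem Gs_le (ha : Mem D a x y θ) (hb : Mem D b x' y' θ') :
    √(Gs a b : ℕ) ≤ 12800 * √((x - x') ^ 2 + (y - y') ^ 2) := by
  have e1 := gap_le ha.x0 ha.x1 hb.x0 hb.x1
  have e2 := gap_le ha.y0 ha.y1 hb.y0 hb.y1
  rw [show 12800 * (x + 1) - 12800 * (x' + 1) = 12800 * (x - x') by ring] at e1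
  rw [show 12800 * y - 12800 * y' = 12800 * (y - y') by ring] at e2
  rw [show (12800 : ℝ) = √(12800 ^ 2) by rw [Real.sqrt_sq (by norm_num)], ← Real.sqrt_mul (by norm_num)]
  apply Real.sqrt_le_sqrt
  simp only [Gs, n2, gx, gy, Nat.add_eq, Nat.mul_eq, Nat.sub_eq]
  rw [Nat.cast_add, Nat.cast_mul, Nat.cast_mul]
  have f1 := mul_self_le_mul_self (Nat.cast_nonneg _) e1
  have f2 := mul_self_le_mul_self (Nat.cast_nonneg _) e2
  rw [abs_mul_abs_self] at f1 f2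
  nlinarith

theorem Go_le (ha : Mem D a x y θ) (hb : Mem D b x' y' θ') :
    √(Go a b : ℕ) ≤ 12800 * √((x - x') ^ 2 + (y + y') ^ 2) := by
  have e1 := gap_le ha.x0 ha.x1 hb.x0 hb.x1
  have e2 : ((a.y0 + b.y0 : ℕ) : ℝ) ≤ 12800 * (y + y') := by
    push_cast; linarith [ha.y0, hb.y0]
  rw [show 12800 * (x + 1) - 12800 * (x' + 1) = 12800 * (x - x') by ring] at e1
  rw [show (12800 : ℝ) = √(12800 ^ 2) by rw [Real.sqrt_sq (by norm_num)], ← Real.sqrt_mul (by norm_num)]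
  apply Real.sqrt_le_sqrt
  simp only [Go, n2, gx, Nat.add_eq, Nat.mul_eq, Nat.sub_eq]
  rw [Nat.cast_add (_ * _), Nat.cast_mul, Nat.cast_mul]
  have f1 := mul_self_le_mul_self (Nat.cast_nonneg _) e1
  have f2 := mul_self_le_mul_self (Nat.cast_nonneg _) e2
  rw [abs_mul_abs_self] at f1
  nlinarith

theorem le_Ms (ha : Mem D a x y θ) (hb : Mem D b x' y' θ') (hx : x ^ 2 + y ^ 2 ≤ 1)
    (hx' : x' ^ 2 + y' ^ 2 ≤ 1) :
    12800 * √((x - x') ^ 2 + (y - y') ^ 2) ≤ √(Ms a b : ℕ) := by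
  rw [show (12800 : ℝ) = √(12800 ^ 2) by rw [Real.sqrt_sq (by norm_num)], ← Real.sqrt_mul (by norm_num)]
  apply Real.sqrt_le_sqrt
  have e1 := far_le ha.x0 ha.x1 hb.x0 hb.x1
  have e2 := far_le ha.y0 ha.y1 hb.y0 hb.y1
  rw [show 12800 * (x + 1) - 12800 * (x' + 1) = 12800 * (x - x') by ring] at e1
  rw [show 12800 * y - 12800 * y' = 12800 * (y - y') by ring] at e2
  simp only [Ms]
  refine le_mn (le_mn ?_ ?_) ?_
  · push_cast
    nlinarith [sq_nonneg (x + x'), sq_nonneg (y + y')]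
  · simp only [fx, fy, n2, Nat.add_eq, Nat.mul_eq, Nat.sub_eq]
    rw [Nat.cast_add, Nat.cast_mul, Nat.cast_mul]
    have f1 := mul_self_le_mul_self (abs_nonneg _) e1
    have f2 := mul_self_le_mul_self (abs_nonneg _) e2
    rw [abs_mul_abs_self] at f1 f2
    nlinarith
  · simp only [Nat.mul_eq, Nat.sub_eq]
    have g1 := hm_ge ha.x0 ha.x1 hb.x0 hb.x1
    have g2 := sub_le_natsub (hm a b) (a.y0 * b.y0)
    have g3 : ((a.y0 * b.y0 : ℕ) : ℝ) ≤ (12800 * y) * (12800 * y') := by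
      push_cast
      exact mul_le_mul ha.y0 hb.y0 (Nat.cast_nonneg _) (le_trans (Nat.cast_nonneg _) ha.y0)
    rw [Nat.cast_mul, Nat.cast_ofNat]
    nlinarith

theorem le_Mo (ha : Mem D a x y θ) (hb : Mem D b x' y' θ') (hx : x ^ 2 + y ^ 2 ≤ 1)
    (hx' : x' ^ 2 + y' ^ 2 ≤ 1) :
    12800 * √((x - x') ^ 2 + (y + y') ^ 2) ≤ √(Mo a b : ℕ) := by
  rw [show (12800 : ℝ) = √(12800 ^ 2) by rw [Real.sqrt_sq (by norm_num)], ← Real.sqrt_mul (by norm_num)]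
  apply Real.sqrt_le_sqrt
  have y0 : 0 ≤ 12800 * y := le_trans (Nat.cast_nonneg _) ha.y0
  have y0' : 0 ≤ 12800 * y' := le_trans (Nat.cast_nonneg _) hb.y0
  have e1 := far_le ha.x0 ha.x1 hb.x0 hb.x1
  have e2 : 12800 * (y + y') ≤ ((a.y1 + b.y1 : ℕ) : ℝ) := by
    push_cast; linarith [ha.y1, hb.y1]
  rw [show 12800 * (x + 1) - 12800 * (x' + 1) = 12800 * (x - x') by ring] at e1
  simp only [Mo]
  refine le_mn (le_mn ?_ ?_) ?_
  · push_cast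
    nlinarith [sq_nonneg (x + x'), sq_nonneg (y - y')]
  · simp only [fx, n2, Nat.add_eq, Nat.mul_eq, Nat.sub_eq]
    rw [Nat.cast_add (_ * _), Nat.cast_mul, Nat.cast_mul]
    have f1 := mul_self_le_mul_self (abs_nonneg _) e1
    have f2 := mul_self_le_mul_self (by linarith) e2
    rw [abs_mul_abs_self] at f1
    nlinarith
  · simp only [Nat.mul_eq, Nat.add_eq]
    have g1 := hm_ge ha.x0 ha.x1 hb.x0 hb.x1
    have g3 : (12800 * y) * (12800 * y') ≤ ((a.y1 * b.y1 : ℕ) : ℝ) := by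
      push_cast
      exact mul_le_mul ha.y1 hb.y1 y0' (Nat.cast_nonneg _)
    rw [Nat.cast_mul, Nat.cast_ofNat, Nat.cast_add]
    nlinarith

end geo

/-- the angles of an item -/
theorem item_ang {D : ℝ} {a : It} (h0 : 0 < n0 a) (h1 : 0 < n1 a) :
    ∃ t0 t1 : ℝ, (0 ≤ t0 ∧ t0 ≤ π / 2) ∧ (0 ≤ t1 ∧ t1 ≤ π / 2) ∧
      (√(n0 a : ℕ) * cos t0 = a.p0 ∧ √(n0 a : ℕ) * sin t0 = a.q0) ∧
      (√(n1 a : ℕ) * cos t1 = a.p1 ∧ √(n1 a : ℕ) * sin t1 = a.q1) ∧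
      ∀ x y θ, Mem D a x y θ → t0 ≤ θ ∧ θ ≤ t1 := by
  obtain ⟨t0, a0, b0, c0, s0⟩ := exists_ang _ _ h0
  obtain ⟨t1, a1, b1, c1, s1⟩ := exists_ang _ _ h1
  refine ⟨t0, t1, ⟨a0, b0⟩, ⟨a1, b1⟩, ⟨c0, s0⟩, ⟨c1, s1⟩, fun x y θ hm => ⟨?_, ?_⟩⟩
  · exact le_ang_of_cross (Real.sqrt_pos.2 (by exact_mod_cast h0)) a0 b0 c0 s0 hm.t0 hm.t1 hm.u0
  · exact ang_le_of_cross (Real.sqrt_pos.2 (by exact_mod_cast h1)) a1 b1 c1 s1 hm.t0 hm.t1 hm.u1

end Pool.Agent.H62.Ball
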