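import Pool.Agent.H62.Ball.Sound2

open Real

namespace Pool.Agent.H62.Ball

open It

/-- the constants -/
structure Cst (s D r : ℝ) : Prop where
  s0 : 0 < s
  hr : r = 2 * (1 - s)
  hr' : 16696 ≤ 12800 * r
  sD : sin (D / 2) = s
  sD2 : sin D = 1 - s
  D0 : 0 ≤ D
  D1 : D ≤ π

theorem sin_mono {u v : ℝ} (h0 : -(π / 2) ≤ u) (h1 : v ≤ π / 2) (h : u ≤ v) : sin u ≤ sin v :=
  Real.sin_le_sin_of_le_of_le_pi_div_two h0 h1 h

/-- upper bound from the check -/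
theorem upper_of {G N s : ℕ} {σ d r : ℝ} (hN : 0 < N) (h : chkU G N s = true)
    (hσ : √N * σ ≤ s) (hG : √G ≤ 12800 * d) (hr : 16696 ≤ 12800 * r) : 2 * σ ≤ d + r := by
  have h1 := chkU_sound h
  have hN' : 0 < √(N : ℝ) := Real.sqrt_pos.2 (by exact_mod_cast hN)
  have h2 : √N * (2 * 12800 * σ) ≤ √N * (√G + 16696) := by linarith
  have h3 := le_of_mul_le_mul_left h2 hN'
  linarith

theorem lower_of {M N s : ℕ} {σ d r : ℝ} (hN : 0 < N) (h : chkL M N s = true)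
    (hσ : (s : ℝ) ≤ √N * σ) (hM : 12800 * d ≤ √M) (hr : 16696 ≤ 12800 * r) :
    d ≤ 2 * σ + r := by
  have h1 := chkL_sound h
  have hN' : 0 < √(N : ℝ) := Real.sqrt_pos.2 (by exact_mod_cast hN)
  have h2 : √N * √M ≤ √N * (2 * 12800 * σ + 16696) := by linarith
  have h3 := le_of_mul_le_mul_left h2 hN'
  linarith

theorem sqrt_prod (m n : ℕ) : √((m * n : ℕ) : ℝ) = √(m : ℝ) * √(n : ℝ) := by
  rw [Nat.cast_mul, Real.sqrt_mul (Nat.cast_nonneg _)]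

variable {s D r : ℝ} {a b : It} {x y θ x' y' θ' : ℝ}

theorem k11_sound (h : k11 a b = true) (ha : Mem D a x y θ) (hb : Mem D b x' y' θ') :
    θ = D / 2 ∧ θ' = D / 2 := by
  simp only [k11, Nat.mul_eq, Nat.beq_eq] at h
  have h' : a.k * b.k = 1 := by simpa using h
  exact ⟨ha.k1 (Nat.eq_one_of_mul_eq_one_right h'), hb.k1 (Nat.eq_one_of_mul_eq_one_left h')⟩

theorem k12_sound (h : k12 a b = true) (ha : Mem D a x y θ) (hb : Mem D b x' y' θ') :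
    (θ = D / 2 ∧ θ' = 0) ∨ (θ = 0 ∧ θ' = D / 2) := by
  simp only [k12, Nat.mul_eq, Nat.beq_eq] at h
  have h' : a.k * b.k = 2 := by simpa using h
  have hp := Nat.prime_two
  rcases (Nat.prime_mul_iff.1 (h' ▸ hp : Nat.Prime (a.k * b.k))) with ⟨h1, h2⟩ | ⟨h1, h2⟩
  · right
    rw [h2, mul_one] at h'
    exact ⟨ha.k2 h', hb.k1 h2⟩
  · left
    rw [h2, one_mul] at h'
    exact ⟨ha.k1 h2, hb.k2 h'⟩

theorem us_sound (hc : Cst s D r) (ha : Mem D a x y θ) (hb : Mem D b x' y' θ')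
    (na0 : 0 < n0 a) (na1 : 0 < n1 a) (nb0 : 0 < n0 b) (nb1 : 0 < n1 b) (h : us a b = true) :
    2 * |sin (θ - θ')| ≤ √((x - x') ^ 2 + (y - y') ^ 2) + r := by
  have hr0 : 0 ≤ r := by linarith [hc.hr']
  have hG := Gs_le ha hb
  rw [us, Bool.or_eq_true, Bool.and_eq_true] at h
  rcases h with h | ⟨h1, h2⟩
  · obtain ⟨e1, e2⟩ := k11_sound h ha hb
    rw [e1, e2]; simp; positivity
  · obtain ⟨t0, t1, ⟨t00, t01⟩, ⟨t10, t11⟩, ⟨c0, s0⟩, ⟨c1, s1⟩, hta⟩ := item_ang (D := D) na0 na1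
    obtain ⟨t0', t1', ⟨t00', t01'⟩, ⟨t10', t11'⟩, ⟨c0', s0'⟩, ⟨c1', s1'⟩, htb⟩ :=
      item_ang (D := D) nb0 nb1
    obtain ⟨q0, q1⟩ := hta _ _ _ ha
    obtain ⟨q0', q1'⟩ := htb _ _ _ hb
    have hpi := Real.pi_pos
    have m1 : sin (θ - θ') ≤ sin (t1 - t0') := sin_mono (by linarith) (by linarith) (by linarith)
    have m2 : sin (θ' - θ) ≤ sin (t1' - t0) := sin_mono (by linarith) (by linarith) (by linarith)
    have u1 : 2 * sin (t1 - t0') ≤ √((x - x') ^ 2 + (y - y') ^ 2) + r := by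
      refine upper_of (Nat.mul_pos na1 nb0) h1 ?_ hG hc.hr'
      rw [sqrt_prod, Real.sin_sub]
      simp only [Nat.mul_eq, Nat.sub_eq]
      have := sub_le_natsub (a.q1 * b.p0) (a.p1 * b.q0)
      refine le_trans (le_of_eq ?_) this
      push_cast
      rw [← s1, ← c0', ← c1, ← s0']; ring
    have u2 : 2 * sin (t1' - t0) ≤ √((x - x') ^ 2 + (y - y') ^ 2) + r := by
      refine upper_of (Nat.mul_pos na0 nb1) h2 ?_ hG hc.hr'
      rw [sqrt_prod, Real.sin_sub]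
      simp only [Nat.mul_eq, Nat.sub_eq]
      have := sub_le_natsub (b.q1 * a.p0) (b.p1 * a.q0)
      refine le_trans (le_of_eq ?_) this
      push_cast
      rw [← s1', ← c0, ← c1', ← s0]; ring
    rcases abs_cases (sin (θ - θ')) with ⟨e, _⟩ | ⟨e, _⟩
    · rw [e]; linarith
    · rw [e, ← Real.sin_neg, neg_sub]; linarith

theorem ls_sound (hc : Cst s D r) (ha : Mem D a x y θ) (hb : Mem D b x' y' θ')
    (na0 : 0 < n0 a) (na1 : 0 < n1 a) (nb0 : 0 < n0 b) (nb1 : 0 < n1 b)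
    (hx : x ^ 2 + y ^ 2 ≤ 1) (hx' : x' ^ 2 + y' ^ 2 ≤ 1) (h : ls a b = true) :
    √((x - x') ^ 2 + (y - y') ^ 2) ≤ 2 * |sin (θ - θ')| + r := by
  have hr0 : 0 ≤ r := by linarith [hc.hr']
  have hM := le_Ms ha hb hx hx'
  rw [ls, Bool.or_eq_true, Bool.or_eq_true, Bool.or_eq_true] at h
  rcases h with h | h | h | h
  · have h2 : √((x - x') ^ 2 + (y - y') ^ 2) ≤ 2 := by
      rw [Real.sqrt_le_left (by norm_num)]
      nlinarith [sq_nonneg (x + x'), sq_nonneg (y + y')]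
    have h3 : |sin (θ - θ')| = s := by
      rcases k12_sound h ha hb with ⟨e1, e2⟩ | ⟨e1, e2⟩
      · rw [e1, e2, sub_zero, hc.sD, abs_of_pos hc.s0]
      · rw [e1, e2, zero_sub, Real.sin_neg, hc.sD, abs_neg, abs_of_pos hc.s0]
    rw [h3, hc.hr]; linarith
  · rw [Nat.ble_eq] at h
    have h1 : √(Ms a b : ℕ) ≤ 16696 := by
      rw [Real.sqrt_le_left (by norm_num)]
      have : ((Ms a b : ℕ) : ℝ) ≤ (278756416 : ℕ) := by exact_mod_cast h
      refine this.trans ?_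
      norm_num
    have := hc.hr'
    have := abs_nonneg (sin (θ - θ'))
    linarith
  · obtain ⟨t0, t1, ⟨t00, t01⟩, ⟨t10, t11⟩, ⟨c0, s0⟩, ⟨c1, s1⟩, hta⟩ := item_ang (D := D) na0 na1
    obtain ⟨t0', t1', ⟨t00', t01'⟩, ⟨t10', t11'⟩, ⟨c0', s0'⟩, ⟨c1', s1'⟩, htb⟩ :=
      item_ang (D := D) nb0 nb1
    obtain ⟨q0, q1⟩ := hta _ _ _ ha
    obtain ⟨q0', q1'⟩ := htb _ _ _ hb
    have hpi := Real.pi_pos
    have m1 : sin (t0 - t1') ≤ sin (θ - θ') := sin_mono (by linarith) (by linarith) (by linarith)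
    refine lower_of (Nat.mul_pos na0 nb1) h ?_ hM hc.hr'
    rw [sqrt_prod]
    simp only [Nat.mul_eq, Nat.sub_eq]
    have e : √(n0 a : ℕ) * √(n1 b : ℕ) * sin (t0 - t1') = (a.q0 : ℝ) * b.p1 - a.p0 * b.q1 := by
      rw [Real.sin_sub, ← s0, ← c1', ← c0, ← s1']; ring
    have e2 : √(n0 a : ℕ) * √(n1 b : ℕ) * sin (t0 - t1') ≤
        √(n0 a : ℕ) * √(n1 b : ℕ) * |sin (θ - θ')| :=
      mul_le_mul_of_nonneg_left (m1.trans (le_abs_self _)) (by positivity)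
    rcases le_total (a.p0 * b.q1) (a.q0 * b.p1) with hle | hle
    · rw [Nat.cast_sub hle]; push_cast; linarith
    · rw [Nat.sub_eq_zero_of_le hle, Nat.cast_zero]; positivity
  · obtain ⟨t0, t1, ⟨t00, t01⟩, ⟨t10, t11⟩, ⟨c0, s0⟩, ⟨c1, s1⟩, hta⟩ := item_ang (D := D) na0 na1
    obtain ⟨t0', t1', ⟨t00', t01'⟩, ⟨t10', t11'⟩, ⟨c0', s0'⟩, ⟨c1', s1'⟩, htb⟩ :=
      item_ang (D := D) nb0 nb1
    obtain ⟨q0, q1⟩ := hta _ _ _ ha
    obtain ⟨q0', q1'⟩ := htb _ _ _ hb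
    have hpi := Real.pi_pos
    have m1 : sin (t0' - t1) ≤ sin (θ' - θ) := sin_mono (by linarith) (by linarith) (by linarith)
    refine lower_of (Nat.mul_pos na1 nb0) h ?_ hM hc.hr'
    rw [sqrt_prod]
    simp only [Nat.mul_eq, Nat.sub_eq]
    have e : √(n1 a : ℕ) * √(n0 b : ℕ) * sin (t0' - t1) = (b.q0 : ℝ) * a.p1 - b.p0 * a.q1 := by
      rw [Real.sin_sub, ← s0', ← c1, ← c0', ← s1]; ring
    have e2 : √(n1 a : ℕ) * √(n0 b : ℕ) * sin (t0' - t1) ≤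
        √(n1 a : ℕ) * √(n0 b : ℕ) * |sin (θ - θ')| := by
      rw [← abs_neg, ← Real.sin_neg, neg_sub]
      exact mul_le_mul_of_nonneg_left (m1.trans (le_abs_self _)) (by positivity)
    rcases le_total (b.p0 * a.q1) (b.q0 * a.p1) with hle | hle
    · rw [Nat.cast_sub hle]; push_cast; linarith
    · rw [Nat.sub_eq_zero_of_le hle, Nat.cast_zero]; positivity

theorem sin_add_nonneg {u v : ℝ} (h0 : 0 ≤ u) (h1 : u ≤ π / 2) (h2 : 0 ≤ v) (h3 : v ≤ π / 2) :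
    0 ≤ sin (u + v) := Real.sin_nonneg_of_nonneg_of_le_pi (by linarith) (by linarith)

theorem uo_sound (hc : Cst s D r) (ha : Mem D a x y θ) (hb : Mem D b x' y' θ')
    (na0 : 0 < n0 a) (na1 : 0 < n1 a) (nb0 : 0 < n0 b) (nb1 : 0 < n1 b) (h : uo a b = true) :
    2 * |sin (θ + θ')| ≤ √((x - x') ^ 2 + (y + y') ^ 2) + r := by
  have hr0 : 0 ≤ r := by linarith [hc.hr']
  have hG := Go_le ha hb
  rw [abs_of_nonneg (sin_add_nonneg ha.t0 ha.t1 hb.t0 hb.t1)]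
  rw [uo, Bool.or_eq_true, Bool.or_eq_true, Bool.or_eq_true, Bool.and_eq_true,
    Bool.and_eq_true] at h
  have hpi := Real.pi_pos
  rcases h with h | h | ⟨h1, h2⟩ | ⟨h1, h2⟩
  · obtain ⟨e1, e2⟩ := k11_sound h ha hb
    rw [e1, e2, show D / 2 + D / 2 = D by ring, hc.sD2, hc.hr]
    have := Real.sqrt_nonneg ((x - x') ^ 2 + (y + y') ^ 2)
    linarith
  · rw [Nat.ble_eq] at h
    have h1 : 8904 ≤ √(Go a b : ℕ) := by
      apply Real.le_sqrt_of_sq_le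
      have : ((79281216 : ℕ) : ℝ) ≤ (Go a b : ℕ) := by exact_mod_cast h
      refine le_trans ?_ this
      norm_num
    have := hc.hr'
    have := Real.sin_le_one (θ + θ')
    linarith
  · rw [Nat.ble_eq] at h1
    obtain ⟨t0, t1, ⟨t00, t01⟩, ⟨t10, t11⟩, ⟨c0, s0⟩, ⟨c1, s1⟩, hta⟩ := item_ang (D := D) na0 na1
    obtain ⟨t0', t1', ⟨t00', t01'⟩, ⟨t10', t11'⟩, ⟨c0', s0'⟩, ⟨c1', s1'⟩, htb⟩ :=
      item_ang (D := D) nb0 nb1
    obtain ⟨q0, q1⟩ := hta _ _ _ ha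
    obtain ⟨q0', q1'⟩ := htb _ _ _ hb
    -- `t1 + t1' ≤ π/2`
    have hN1 : 0 < √(n1 a : ℕ) := Real.sqrt_pos.2 (by exact_mod_cast na1)
    have hN2 : 0 < √(n1 b : ℕ) := Real.sqrt_pos.2 (by exact_mod_cast nb1)
    have h1' : (a.q1 : ℝ) * b.q1 ≤ a.p1 * b.p1 := by
      simp only [Nat.mul_eq] at h1
      exact_mod_cast h1
    have hcos : 0 ≤ cos (t1 + t1') := by
      have : 0 ≤ √(n1 a : ℕ) * √(n1 b : ℕ) * cos (t1 + t1') := by
        rw [Real.cos_add]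
        have : √(n1 a : ℕ) * √(n1 b : ℕ) * (cos t1 * cos t1' - sin t1 * sin t1') =
          (a.p1 : ℝ) * b.p1 - a.q1 * b.q1 := by
          rw [← s1, ← c1, ← s1', ← c1']; ring
        rw [this]; linarith
      by_contra hneg
      push Not at hneg
      have := mul_neg_of_pos_of_neg (mul_pos hN1 hN2) hneg
      linarith
    have hle : t1 + t1' ≤ π / 2 := by
      by_contra hgt
      push Not at hgt
      have := Real.cos_neg_of_pi_div_two_lt_of_lt hgt (by linarith)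
      linarith
    have m1 : sin (θ + θ') ≤ sin (t1 + t1') := sin_mono (by linarith) hle (by linarith)
    refine le_trans (mul_le_mul_of_nonneg_left m1 (by norm_num)) ?_
    refine upper_of (Nat.mul_pos na1 nb1) h2 ?_ hG hc.hr'
    rw [sqrt_prod, Real.sin_add]
    simp only [Nat.mul_eq, Nat.add_eq]
    push_cast
    rw [← s1, ← c1', ← c1, ← s1']
    apply le_of_eq; ring
  · rw [Nat.ble_eq] at h1
    obtain ⟨t0, t1, ⟨t00, t01⟩, ⟨t10, t11⟩, ⟨c0, s0⟩, ⟨c1, s1⟩, hta⟩ := item_ang (D := D) na0 na1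
    obtain ⟨t0', t1', ⟨t00', t01'⟩, ⟨t10', t11'⟩, ⟨c0', s0'⟩, ⟨c1', s1'⟩, htb⟩ :=
      item_ang (D := D) nb0 nb1
    obtain ⟨q0, q1⟩ := hta _ _ _ ha
    obtain ⟨q0', q1'⟩ := htb _ _ _ hb
    have hN1 : 0 < √(n0 a : ℕ) := Real.sqrt_pos.2 (by exact_mod_cast na0)
    have hN2 : 0 < √(n0 b : ℕ) := Real.sqrt_pos.2 (by exact_mod_cast nb0)
    have h1' : (a.p0 : ℝ) * b.p0 ≤ a.q0 * b.q0 := by
      simp only [Nat.mul_eq] at h1
      exact_mod_cast h1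
    have hcos : cos (t0 + t0') ≤ 0 := by
      have : √(n0 a : ℕ) * √(n0 b : ℕ) * cos (t0 + t0') ≤ 0 := by
        rw [Real.cos_add]
        have : √(n0 a : ℕ) * √(n0 b : ℕ) * (cos t0 * cos t0' - sin t0 * sin t0') =
          (a.p0 : ℝ) * b.p0 - a.q0 * b.q0 := by
          rw [← s0, ← c0, ← s0', ← c0']; ring
        rw [this]; linarith
      by_contra hneg
      push Not at hneg
      have := mul_pos (mul_pos hN1 hN2) hneg
      linarith
    have hle : π / 2 ≤ t0 + t0' := by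
      by_contra hgt
      push Not at hgt
      have := Real.cos_pos_of_mem_Ioo ⟨by linarith, hgt⟩
      linarith
    have m1 : sin (θ + θ') ≤ sin (t0 + t0') := by
      rw [← Real.sin_pi_sub, ← Real.sin_pi_sub (t0 + t0')]
      exact sin_mono (by linarith [ha.t1, hb.t1]) (by linarith) (by linarith)
    refine le_trans (mul_le_mul_of_nonneg_left m1 (by norm_num)) ?_
    refine upper_of (Nat.mul_pos na0 nb0) h2 ?_ hG hc.hr'
    rw [sqrt_prod, Real.sin_add]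
    simp only [Nat.mul_eq, Nat.add_eq]
    push_cast
    rw [← s0, ← c0', ← c0, ← s0']
    apply le_of_eq; ring

theorem sin_ge_min {u v w : ℝ} (h0 : 0 ≤ u) (h1 : u ≤ v) (h2 : v ≤ w) (h3 : w ≤ π) :
    sin u ≤ sin v ∨ sin w ≤ sin v := by
  have hpi := Real.pi_pos
  rcases le_total v (π / 2) with h | h
  · left; exact sin_mono (by linarith) h h1
  · right
    rw [← Real.sin_pi_sub w, ← Real.sin_pi_sub v]
    exact sin_mono (by linarith) (by linarith) (by linarith)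

theorem lo_sound (hc : Cst s D r) (ha : Mem D a x y θ) (hb : Mem D b x' y' θ')
    (na0 : 0 < n0 a) (na1 : 0 < n1 a) (nb0 : 0 < n0 b) (nb1 : 0 < n1 b)
    (hx : x ^ 2 + y ^ 2 ≤ 1) (hx' : x' ^ 2 + y' ^ 2 ≤ 1) (h : lo a b = true) :
    √((x - x') ^ 2 + (y + y') ^ 2) ≤ 2 * |sin (θ + θ')| + r := by
  have hr0 : 0 ≤ r := by linarith [hc.hr']
  have hM := le_Mo ha hb hx hx'
  have hab := abs_of_nonneg (sin_add_nonneg ha.t0 ha.t1 hb.t0 hb.t1)
  rw [lo, Bool.or_eq_true, Bool.or_eq_true, Bool.and_eq_true] at h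
  rcases h with h | h | ⟨h1, h2⟩
  · have h2 : √((x - x') ^ 2 + (y + y') ^ 2) ≤ 2 := by
      rw [Real.sqrt_le_left (by norm_num)]
      nlinarith [sq_nonneg (x + x'), sq_nonneg (y - y')]
    have h3 : |sin (θ + θ')| = s := by
      rcases k12_sound h ha hb with ⟨e1, e2⟩ | ⟨e1, e2⟩
      · rw [e1, e2, add_zero, hc.sD, abs_of_pos hc.s0]
      · rw [e1, e2, zero_add, hc.sD, abs_of_pos hc.s0]
    rw [h3, hc.hr]; linarith
  · rw [Nat.ble_eq] at h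
    have h1 : √(Mo a b : ℕ) ≤ 16696 := by
      rw [Real.sqrt_le_left (by norm_num)]
      have : ((Mo a b : ℕ) : ℝ) ≤ (278756416 : ℕ) := by exact_mod_cast h
      refine this.trans ?_
      norm_num
    have := hc.hr'
    have := abs_nonneg (sin (θ + θ'))
    linarith
  · obtain ⟨t0, t1, ⟨t00, t01⟩, ⟨t10, t11⟩, ⟨c0, s0⟩, ⟨c1, s1⟩, hta⟩ := item_ang (D := D) na0 na1
    obtain ⟨t0', t1', ⟨t00', t01'⟩, ⟨t10', t11'⟩, ⟨c0', s0'⟩, ⟨c1', s1'⟩, htb⟩ :=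
      item_ang (D := D) nb0 nb1
    obtain ⟨q0, q1⟩ := hta _ _ _ ha
    obtain ⟨q0', q1'⟩ := htb _ _ _ hb
    rw [hab]
    rcases sin_ge_min (u := t0 + t0') (v := θ + θ') (w := t1 + t1') (by linarith) (by linarith)
      (by linarith) (by linarith) with m | m
    · have : √((x - x') ^ 2 + (y + y') ^ 2) ≤ 2 * sin (t0 + t0') + r := by
        refine lower_of (Nat.mul_pos na0 nb0) h1 ?_ hM hc.hr'
        rw [sqrt_prod, Real.sin_add]
        simp only [Nat.mul_eq, Nat.add_eq]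
        push_cast
        rw [← s0, ← c0', ← c0, ← s0']
        apply le_of_eq; ring
      linarith
    · have : √((x - x') ^ 2 + (y + y') ^ 2) ≤ 2 * sin (t1 + t1') + r := by
        refine lower_of (Nat.mul_pos na1 nb1) h2 ?_ hM hc.hr'
        rw [sqrt_prod, Real.sin_add]
        simp only [Nat.mul_eq, Nat.add_eq]
        push_cast
        rw [← s1, ← c1', ← c1, ← s1']
        apply le_of_eq; ring
      linarith

theorem pair_sound (hc : Cst s D r) (ha : Mem D a x y θ) (hb : Mem D b x' y' θ')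
    (na0 : 0 < n0 a) (na1 : 0 < n1 a) (nb0 : 0 < n0 b) (nb1 : 0 < n1 b)
    (hx : x ^ 2 + y ^ 2 ≤ 1) (hx' : x' ^ 2 + y' ^ 2 ≤ 1) (h : pair a b = true) :
    |√((x - x') ^ 2 + (y - y') ^ 2) - √((2 * sin (θ - θ')) ^ 2)| ≤ r ∧
    |√((x - x') ^ 2 + (y + y') ^ 2) - √((2 * sin (θ + θ')) ^ 2)| ≤ r := by
  rw [pair, Bool.and_eq_true, Bool.and_eq_true, Bool.and_eq_true] at h
  obtain ⟨h1, h2, h3, h4⟩ := h
  have e1 := us_sound hc ha hb na0 na1 nb0 nb1 h1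
  have e2 := ls_sound hc ha hb na0 na1 nb0 nb1 hx hx' h2
  have e3 := uo_sound hc ha hb na0 na1 nb0 nb1 h3
  have e4 := lo_sound hc ha hb na0 na1 nb0 nb1 hx hx' h4
  rw [Real.sqrt_sq_eq_abs, Real.sqrt_sq_eq_abs, abs_mul, abs_mul, abs_two, abs_le, abs_le]
  refine ⟨⟨?_, ?_⟩, ?_, ?_⟩ <;> linarith

end Pool.Agent.H62.Ball
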