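import Pool.Agent.H62.Ball.Sound3

open Real

namespace Pool.Agent.H62.Ball

open It

theorem row_sound {a : It} : ∀ {l : List It}, row a l = true → ∀ b ∈ l, pair a b = true
  | [], _, b, hb => by simp at hb
  | c :: t, h, b, hb => by
    rw [row, Bool.and_eq_true] at h
    rcases List.mem_cons.1 hb with rfl | hb
    · exact h.1
    · exact row_sound h.2 b hb

theorem rows_sound : ∀ {n : ℕ} {l : List It}, l.length ≤ n → rows n l = true →
    ∀ a ∈ l, ∀ b ∈ l, pair a b = true ∨ pair b a = true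
  | _, [], _, _, a, ha, _, _ => by simp at ha
  | 0, c :: t, hn, _, _, _, _, _ => by simp at hn
  | n + 1, c :: t, hn, h, a, ha, b, hb => by
    rw [rows, Bool.and_eq_true] at h
    have hr := row_sound h.1
    rcases List.mem_cons.1 ha with rfl | ha'
    · exact Or.inl (hr b hb)
    · rcases List.mem_cons.1 hb with rfl | hb'
      · exact Or.inr (hr a ha)
      · exact rows_sound (by simpa using hn) h.2 a ha' b hb'

theorem items_pair : ∀ a ∈ items, ∀ b ∈ items, pair a b = true ∨ pair b a = true :=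
  rows_sound (by have := cert_len; rwa [Nat.ble_eq] at this) cert_rows

theorem items_pos : ∀ a ∈ items, 0 < n0 a ∧ 0 < n1 a := by
  intro a ha
  have h := List.all_eq_true.1 cert_pos a ha
  simp only [pos, Bool.and_eq_true, Nat.ble_eq] at h
  exact ⟨h.1, h.2⟩

theorem dsq_cast (x y : ℕ) : ((dsq x y : ℕ) : ℝ) = ((x : ℝ) - 12800) ^ 2 + (y : ℝ) ^ 2 := by
  simp only [dsq, It.sq, Nat.add_eq, Nat.mul_eq, Nat.sub_eq]
  rcases le_total x 12800 with h | h
  · rw [Nat.sub_eq_zero_of_le h]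
    push_cast [Nat.cast_sub h]; ring
  · rw [Nat.sub_eq_zero_of_le h]
    push_cast [Nat.cast_sub h]; ring

/-- coverage of the half disc -/
theorem cov_sound (L : List It) : ∀ (T : Tr) (x0 x1 y0 y1 : ℕ), cov L T x0 x1 y0 y1 = true →
    ∀ X Y : ℝ, (x0 : ℝ) ≤ X → X ≤ x1 → (y0 : ℝ) ≤ Y → Y ≤ y1 →
      (X - 12800) ^ 2 + Y ^ 2 ≤ 163840000 →
      ∃ a ∈ L, cellOk a = true ∧ (a.x0 : ℝ) ≤ X ∧ X ≤ a.x1 ∧ (a.y0 : ℝ) ≤ Y ∧ Y ≤ a.y1 := by
  intro T
  induction T with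
  | leaf i =>
    intro x0 x1 y0 y1 h X Y h0 h1 h2 h3 _
    rw [cov] at h
    split at h
    · rename_i a ha
      simp only [Bool.and_eq_true, Nat.ble_eq] at h
      obtain ⟨h4, h5, h6, h7, h8⟩ := h
      refine ⟨a, List.mem_of_getElem? ha, h4, ?_, ?_, ?_, ?_⟩
      · exact le_trans (by exact_mod_cast h5) h0
      · exact le_trans h1 (by exact_mod_cast h6)
      · exact le_trans (by exact_mod_cast h7) h2
      · exact le_trans h3 (by exact_mod_cast h8)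
    · simp at h
  | pt i =>
    intro x0 x1 y0 y1 h X Y h0 h1 h2 h3 hd
    rw [cov] at h
    split at h
    · rename_i a ha
      simp only [Bool.and_eq_true, Bool.or_eq_true, Nat.ble_eq] at h
      obtain ⟨h4, h5, h6, h7⟩ := h
      have hy0 : (0 : ℝ) ≤ y0 := Nat.cast_nonneg _
      rcases h7 with ⟨h8, h9, h10, h11⟩ | ⟨h8, h9, h10, h11⟩
      · have e : (163840000 : ℝ) ≤ (dsq x0 y0 : ℕ) := by exact_mod_cast h9
        rw [dsq_cast] at e
        have hx : (12800 : ℝ) ≤ x0 := by exact_mod_cast h8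
        have e1 : ((x0 : ℝ) - 12800) ^ 2 ≤ (X - 12800) ^ 2 := by nlinarith
        have e2 : (y0 : ℝ) ^ 2 ≤ Y ^ 2 := by nlinarith
        have e3 : X = x0 := by
          have : (X - 12800) ^ 2 ≤ ((x0 : ℝ) - 12800) ^ 2 := by linarith
          have := abs_le_of_sq_le_sq this (by linarith)
          rw [abs_le] at this; linarith
        have e4 : Y = y0 := by
          have : Y ^ 2 ≤ (y0 : ℝ) ^ 2 := by linarith
          have := abs_le_of_sq_le_sq this (by linarith)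
          rw [abs_le] at this; linarith
        refine ⟨a, List.mem_of_getElem? ha, h4, ?_, ?_, ?_, ?_⟩
        · rw [e3]; exact_mod_cast h10
        · rw [e3]; exact_mod_cast h11
        · rw [e4]; exact_mod_cast h5
        · rw [e4]; exact_mod_cast h6
      · have e : (163840000 : ℝ) ≤ (dsq x1 y0 : ℕ) := by exact_mod_cast h9
        rw [dsq_cast] at e
        have hx : (x1 : ℝ) ≤ 12800 := by exact_mod_cast h8
        have e1 : ((x1 : ℝ) - 12800) ^ 2 ≤ (X - 12800) ^ 2 := by nlinarith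
        have e2 : (y0 : ℝ) ^ 2 ≤ Y ^ 2 := by nlinarith
        have e3 : X = x1 := by
          have : (12800 - X) ^ 2 ≤ (12800 - (x1 : ℝ)) ^ 2 := by nlinarith
          have := abs_le_of_sq_le_sq this (by linarith)
          rw [abs_le] at this; linarith
        have e4 : Y = y0 := by
          have : Y ^ 2 ≤ (y0 : ℝ) ^ 2 := by linarith
          have := abs_le_of_sq_le_sq this (by linarith)
          rw [abs_le] at this; linarith
        refine ⟨a, List.mem_of_getElem? ha, h4, ?_, ?_, ?_, ?_⟩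
        · rw [e3]; exact_mod_cast h10
        · rw [e3]; exact_mod_cast h11
        · rw [e4]; exact_mod_cast h5
        · rw [e4]; exact_mod_cast h6
    · simp at h
  | out =>
    intro x0 x1 y0 y1 h X Y h0 h1 h2 h3 hd
    exfalso
    rw [cov] at h
    simp only [Bool.and_eq_true, Bool.or_eq_true, Nat.ble_eq] at h
    have hy0 : (0 : ℝ) ≤ y0 := Nat.cast_nonneg _
    rcases h with ⟨h8, h9⟩ | ⟨h8, h9⟩
    · have e : (163840001 : ℝ) ≤ (dsq x0 y0 : ℕ) := by exact_mod_cast h9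
      rw [dsq_cast] at e
      have hx : (12800 : ℝ) ≤ x0 := by exact_mod_cast h8
      nlinarith
    · have e : (163840001 : ℝ) ≤ (dsq x1 y0 : ℕ) := by exact_mod_cast h9
      rw [dsq_cast] at e
      have hx : (x1 : ℝ) ≤ 12800 := by exact_mod_cast h8
      nlinarith
  | sx c l r ihl ihr =>
    intro x0 x1 y0 y1 h X Y h0 h1 h2 h3 hd
    rw [cov, Bool.and_eq_true] at h
    rcases le_total X c with hc | hc
    · exact ihl _ _ _ _ h.1 X Y h0 hc h2 h3 hd
    · exact ihr _ _ _ _ h.2 X Y hc h1 h2 h3 hd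
  | sy c l r ihl ihr =>
    intro x0 x1 y0 y1 h X Y h0 h1 h2 h3 hd
    rw [cov, Bool.and_eq_true] at h
    rcases le_total Y c with hc | hc
    · exact ihl _ _ _ _ h.1 X Y h0 h1 h2 hc hd
    · exact ihr _ _ _ _ h.2 X Y h0 h1 hc h3 hd

theorem chain_sound {θ : ℝ} (hs : 0 ≤ sin θ) (hcs : 0 ≤ cos θ) : ∀ (l : List It) (p q : ℕ),
    chain p q l = true → (q : ℝ) * cos θ ≤ p * sin θ →
    ∃ a ∈ l, arcOk a = true ∧ (a.q0 : ℝ) * cos θ ≤ a.p0 * sin θ ∧
      (a.p1 : ℝ) * sin θ ≤ a.q1 * cos θ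
  | [], p, q, h, _ => by simp [chain] at h
  | [a], p, q, h, hθ => by
    simp only [chain, Bool.and_eq_true, Nat.beq_eq] at h
    obtain ⟨⟨h1, h2, h3⟩, h4⟩ := h
    refine ⟨a, by simp, h3, ?_, ?_⟩
    · rw [h1, h2]; exact hθ
    · rw [h4, Nat.cast_zero, zero_mul]; positivity
  | a :: b :: t, p, q, h, hθ => by
    rw [chain, Bool.and_eq_true, Bool.and_eq_true, Bool.and_eq_true, Nat.beq_eq, Nat.beq_eq] at h
    obtain ⟨⟨h1, h2, h3⟩, h4⟩ := h
    rcases le_total ((a.p1 : ℝ) * sin θ) (a.q1 * cos θ) with hc | hc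
    · refine ⟨a, by simp, h3, ?_, hc⟩
      rw [h1, h2]; exact hθ
    · obtain ⟨c, hc1, hc2⟩ := chain_sound hs hcs (b :: t) a.p1 a.q1 h4 hc
      exact ⟨c, List.mem_cons_of_mem _ hc1, hc2⟩

/-- half angles exist for cells -/
theorem cell_theta {s D r : ℝ} (hc : Cst s D r)
    (hb0 : 3709720 * cos (D / 2) ≤ 10000000 * s)
    (hb1 : 10000000 * s ≤ 3709721 * cos (D / 2)) {a : It} (ha : 0 < n0 a) (h : cellOk a = true) :
    ∃ θ, 0 ≤ θ ∧ θ ≤ π / 2 ∧ (a.q0 : ℝ) * cos θ ≤ a.p0 * sin θ ∧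
      (a.p1 : ℝ) * sin θ ≤ a.q1 * cos θ ∧ (a.k = 1 → θ = D / 2) ∧ (a.k = 2 → θ = 0) := by
  simp only [cellOk, Bool.or_eq_true, Bool.and_eq_true, Nat.beq_eq, Nat.ble_eq, Nat.mul_eq] at h
  rcases h with ⟨h1, h2⟩ | ⟨h1, h2, h3, h4, h5⟩ | ⟨h1, h2⟩
  · obtain ⟨t0, a0, b0, c0, s0⟩ := exists_ang _ _ ha
    have hN : 0 < √(n0 a : ℕ) := Real.sqrt_pos.2 (by exact_mod_cast ha)
    refine ⟨t0, a0, b0, ?_, ?_, by omega, by omega⟩
    · have e1 : (a.p0 : ℝ) = √(n0 a : ℕ) * cos t0 := c0.symm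
      have e2 : (a.q0 : ℝ) = √(n0 a : ℕ) * sin t0 := s0.symm
      rw [e1, e2]; apply le_of_eq; ring
    · have e1 : (a.p0 : ℝ) = √(n0 a : ℕ) * cos t0 := c0.symm
      have e2 : (a.q0 : ℝ) = √(n0 a : ℕ) * sin t0 := s0.symm
      have h2' : (a.p1 : ℝ) * a.q0 ≤ a.q1 * a.p0 := by exact_mod_cast h2
      rw [e1, e2] at h2'
      have : √(n0 a : ℕ) * ((a.p1 : ℝ) * sin t0) ≤ √(n0 a : ℕ) * (a.q1 * cos t0) := by linarith
      exact le_of_mul_le_mul_left this hN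
  · have hD := hc.D0
    have hD1 := hc.D1
    refine ⟨D / 2, by linarith, by linarith, ?_, ?_, fun _ => rfl, fun h => by omega⟩
    · rw [h2, h3, hc.sD]; push_cast; linarith
    · rw [h4, h5, hc.sD]; push_cast; linarith
  · have := Real.pi_pos
    refine ⟨0, le_rfl, by linarith, ?_, ?_, fun h => by omega, fun _ => rfl⟩
    · rw [h2]; simp
    · simp

/-- The plane relation. -/
theorem plane_rel {s D r : ℝ} (hc : Cst s D r)
    (hb0 : 3709720 * cos (D / 2) ≤ 10000000 * s)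
    (hb1 : 10000000 * s ≤ 3709721 * cos (D / 2)) :
    ∃ P : ℝ → ℝ → ℝ → Prop,
      (∀ x y, 0 ≤ y → x ^ 2 + y ^ 2 ≤ 1 → ∃ θ, 0 ≤ θ ∧ θ ≤ π / 2 ∧ P x y θ) ∧
      (∀ θ, 0 ≤ θ → θ ≤ π / 2 → ∃ x y, 0 ≤ y ∧ x ^ 2 + y ^ 2 ≤ 1 ∧ P x y θ) ∧
      (∀ x y θ x' y' θ', P x y θ → P x' y' θ' → x ^ 2 + y ^ 2 ≤ 1 → x' ^ 2 + y' ^ 2 ≤ 1 →
        |√((x - x') ^ 2 + (y - y') ^ 2) - √((2 * sin (θ - θ')) ^ 2)| ≤ r ∧
        |√((x - x') ^ 2 + (y + y') ^ 2) - √((2 * sin (θ + θ')) ^ 2)| ≤ r) := by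
  refine ⟨fun x y θ => ∃ a ∈ items, Mem D a x y θ, ?_, ?_, ?_⟩
  · intro x y hy hxy
    have hx : |x| ≤ 1 := by
      rw [← sq_le_one_iff_abs_le_one]; nlinarith
    rw [abs_le] at hx
    have hy1 : y ≤ 1 := by nlinarith
    obtain ⟨a, ha, h1, h2, h3, h4, h5⟩ := cov_sound items tree 0 25600 0 12800 cert_cov
      (12800 * (x + 1)) (12800 * y) (by push_cast; linarith) (by push_cast; linarith)
      (by push_cast; linarith) (by push_cast; linarith) (by nlinarith)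
    obtain ⟨θ, t0, t1, u0, u1, k1, k2⟩ := cell_theta hc hb0 hb1 (items_pos a ha).1 h1
    exact ⟨θ, t0, t1, a, ha, h2, h3, h4, h5, t0, t1, u0, u1, k1, k2⟩
  · intro θ h0 h1
    have hpi := Real.pi_pos
    have hs : 0 ≤ sin θ := Real.sin_nonneg_of_nonneg_of_le_pi h0 (by linarith)
    have hcs : 0 ≤ cos θ := Real.cos_nonneg_of_mem_Icc ⟨by linarith, h1⟩
    obtain ⟨a, ha, h2, h3, h4⟩ := chain_sound hs hcs _ 1 0 cert_chain (by simpa using hs)
    have ha' : a ∈ items := List.mem_of_mem_drop ha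
    simp only [arcOk, Bool.and_eq_true, Nat.beq_eq, Nat.ble_eq] at h2
    obtain ⟨k0, hx, hy, hd⟩ := h2
    have hd' : ((dsq a.x0 a.y0 : ℕ) : ℝ) ≤ 163840000 := by exact_mod_cast hd
    rw [dsq_cast] at hd'
    have e1 : 12800 * ((a.x0 : ℝ) / 12800 - 1 + 1) = a.x0 := by ring
    have e2 : 12800 * ((a.y0 : ℝ) / 12800) = a.y0 := by ring
    refine ⟨(a.x0 : ℝ) / 12800 - 1, (a.y0 : ℝ) / 12800, by positivity, ?_, a, ha', ?_, ?_, ?_, ?_,
      h0, h1, h3, h4, by omega, by omega⟩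
    · have : ((a.x0 : ℝ) / 12800 - 1) ^ 2 + ((a.y0 : ℝ) / 12800) ^ 2 =
        (((a.x0 : ℝ) - 12800) ^ 2 + (a.y0 : ℝ) ^ 2) / 163840000 := by ring
      rw [this, div_le_one (by norm_num)]; exact hd'
    · rw [e1]
    · rw [e1]; exact_mod_cast hx
    · rw [e2]
    · rw [e2]; exact_mod_cast hy
  · rintro x y θ x' y' θ' ⟨a, ha, hm⟩ ⟨b, hb, hm'⟩ hx hx'
    have pa := items_pos a ha
    have pb := items_pos b hb
    rcases items_pair a ha b hb with h | h
    · exact pair_sound hc hm hm' pa.1 pa.2 pb.1 pb.2 hx hx' h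
    · have := pair_sound hc hm' hm pb.1 pb.2 pa.1 pa.2 hx' hx h
      rw [show (x' - x) ^ 2 = (x - x') ^ 2 by ring, show (y' - y) ^ 2 = (y - y') ^ 2 by ring,
        show (y' + y) ^ 2 = (y + y') ^ 2 by ring, show θ' + θ = θ + θ' by ring,
        show (2 * sin (θ' - θ)) ^ 2 = (2 * sin (θ - θ')) ^ 2 by
          rw [← neg_sub θ θ', Real.sin_neg]; ring] at this
      exact this

end Pool.Agent.H62.Ball
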